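/-
Representations in positive characteristic: a representation which kills the Torelli group and in
which the twists are unipotent kills the mapping classes which act trivially on the homology
modulo the characteristic.
-/
import Pool.Agent.H.MP_59b15d_al.h52e.Irr
import Pool.Agent.H.MP_59b15d_al.sp.End
import Pool.Agent.H.MP_59b15d_al.lin.Fin

set_option autoImplicit false

namespace Pool.Agent.H.MP_59b15d_al.H78E

universe u v w

open Module Pool.MP_59b15d_al.H24T Pool.MP_59b15d_al.H76R Pool.MP_59b15d_al.H73E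
open Pool.MP_59b15d_al.H60G Pool.MP_59b15d_al.H40L
open Pool.Agent.H.MP_59b15d_al.Lin Pool.Agent.H.MP_59b15d_al.H52E
open Pool.Agent.H.MP_59b15d_al.SP (cls Dv Cg spm Sp power_spm cg_spm_iff spm_cls cls_surj)

section abstract

variable {F : Type u} [Field F] {V : Type v} [AddCommGroup V] [Module F V]

/-- Finitely many operators of `p`-power order forming a group have a common nonzero fixed vector
in characteristic `p`. -/
theorem exists_fixed {p : ℕ} [Fact p.Prime] [CharP F p] {P : Type w} [Group P]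
    (ρ : P →* Module.End F V) (hfin : (Set.range ρ).Finite)
    (hp : ∀ x : P, ∃ k : ℕ, ρ x ^ p ^ k = 1) {v0 : V} (hv0 : v0 ≠ 0) :
    ∃ v : V, v ≠ 0 ∧ ∀ x, ρ x v = v := by
  classical
  have hpz : ∀ v : V, p • v = 0 := by
    intro v
    have h1 : p • v = ((p : ℕ) : F) • v := (Nat.cast_smul_eq_nsmul F p v).symm
    rw [h1, CharP.cast_eq_zero, zero_smul]
  -- the orbit
  obtain ⟨S, hS⟩ : ∃ S : Set V, S = Set.range fun x : P => ρ x v0 := ⟨_, rfl⟩
  have hSf : S.Finite := by
    have : S = (fun f : Module.End F V => f v0) '' Set.range ρ := by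
      rw [hS, ← Set.range_comp]; rfl
    rw [this]
    exact hfin.image _
  obtain ⟨W, hW⟩ : ∃ W : AddSubgroup V, W = AddSubgroup.closure S := ⟨_, rfl⟩
  have hWfg : AddGroup.FG W := by
    rw [AddGroup.fg_iff_addSubgroup_fg]
    exact ⟨hSf.toFinset, by rw [hW, Set.Finite.coe_toFinset]⟩
  have hWt : IsAddTorsion W := by
    intro w
    rw [isOfFinAddOrder_iff_nsmul_eq_zero]
    exact ⟨p, (Fact.out : p.Prime).pos, Subtype.ext (hpz w.1)⟩
  have hWfin : Finite W := AddCommGroup.finite_of_fg_isAddTorsion W hWt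
  -- invariance
  have hinv : ∀ (x : P) (w : V), w ∈ W → ρ x w ∈ W := by
    intro x w hw
    rw [hW] at hw ⊢
    induction hw using AddSubgroup.closure_induction with
    | mem w hw =>
      rw [hS] at hw
      obtain ⟨y, rfl⟩ := hw
      refine AddSubgroup.subset_closure ?_
      rw [hS]
      exact ⟨x * y, by simp only [map_mul, Module.End.mul_apply]⟩
    | zero => rw [map_zero]; exact zero_mem _
    | add a b _ _ ha hb => rw [map_add]; exact add_mem ha hb
    | neg a _ ha => rw [map_neg]; exact neg_mem ha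
  have hv0W : v0 ∈ W := by
    rw [hW]
    refine AddSubgroup.subset_closure ?_
    rw [hS]
    exact ⟨1, by simp only [map_one, Module.End.one_apply]⟩
  -- the group
  obtain ⟨Q, hQ⟩ : ∃ Q : Subgroup (Module.End F V)ˣ, Q = ρ.toHomUnits.range := ⟨_, rfl⟩
  have hQW : ∀ u ∈ Q, ∀ w ∈ W, (u : Module.End F V) w ∈ W := by
    intro u hu w hw
    rw [hQ] at hu
    obtain ⟨x, rfl⟩ := hu
    exact hinv x w hw
  have hQp : IsPGroup p Q := by
    rintro ⟨u, hu⟩
    have hu' := hu
    rw [hQ] at hu'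
    obtain ⟨x, rfl⟩ := hu'
    obtain ⟨k, hk⟩ := hp x
    refine ⟨k, Subtype.ext (Units.ext ?_)⟩
    simpa using hk
  let act : MulAction Q W :=
    { smul := fun u w => ⟨(u.1 : Module.End F V) w.1, hQW u.1 u.2 w.1 w.2⟩
      one_smul := fun w => Subtype.ext rfl
      mul_smul := fun u u' w => Subtype.ext rfl }
  have hdvd : p ∣ Nat.card W := by
    have h1 : addOrderOf (⟨v0, hv0W⟩ : W) = p :=
      addOrderOf_eq_prime (Subtype.ext (hpz v0)) (fun h0 => hv0 (congrArg Subtype.val h0))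
    have h2 := addOrderOf_dvd_natCard (⟨v0, hv0W⟩ : W)
    rwa [h1] at h2
  have h0 : (0 : W) ∈ MulAction.fixedPoints Q W := by
    intro u
    exact Subtype.ext (map_zero (u.1 : Module.End F V))
  obtain ⟨w, hw, hw0⟩ := hQp.exists_fixed_point_of_prime_dvd_card_of_fixed_point W hdvd h0
  refine ⟨w.1, fun h1 => hw0 (Subtype.ext h1.symm), fun x => ?_⟩
  have h2 := hw ⟨ρ.toHomUnits x, by rw [hQ]; exact ⟨x, rfl⟩⟩
  exact congrArg Subtype.val h2

end abstract

section level

open Pool.Agent.H.MP_59b15d_al.SP (e f expand sp_one)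

variable {g : ℕ}

theorem cg_pow_aux {m : ℤ} {A : Sp g} (hA : Cg m A) (k : ℕ) (v : SP.V g) :
    ∃ w, (A ^ k) v = v + (k : ℤ) • (A v - v) + (m * m) • w := by
  induction k with
  | zero => exact ⟨0, by rw [pow_zero, sp_one]; simp⟩
  | succ k ih =>
    obtain ⟨w, hw⟩ := ih
    obtain ⟨d, hd⟩ := hA v
    obtain ⟨d', hd'⟩ := hA d
    refine ⟨(k : ℤ) • d' + A w, ?_⟩
    have h1 : (A ^ (k + 1)) v = A ((A ^ k) v) := by rw [pow_succ']; rfl
    have hv : A v = v + m • d := by rw [← hd]; abel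
    have hdd : A d = d + m • d' := by rw [← hd']; abel
    rw [h1, hw, hd]
    have h2 : A (v + (k : ℤ) • m • d + (m * m) • w) =
        A v + (k : ℤ) • m • A d + (m * m) • A w := by
      rw [map_add, map_add, map_zsmul, map_zsmul, map_zsmul]
    rw [h2, hv, hdd]
    push_cast
    module

theorem cg_pow_step {m p : ℤ} (hmp : p ∣ m) {k : ℕ} (hk : (k : ℤ) = p) {A : Sp g}
    (hA : Cg m A) : Cg (m * p) (A ^ k) := by
  intro v
  obtain ⟨w, hw⟩ := cg_pow_aux hA k v
  obtain ⟨d, hd⟩ := hA v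
  obtain ⟨c, rfl⟩ := hmp
  refine ⟨d + c • w, ?_⟩
  rw [hw, hd, hk]
  module

theorem cg_pow_pow {p : ℕ} {A : Sp g} (hA : Cg (p : ℤ) A) (i : ℕ) :
    Cg ((p : ℤ) ^ (i + 1)) (A ^ p ^ i) := by
  induction i with
  | zero => simpa using hA
  | succ i ih =>
    have h1 := cg_pow_step (p := (p : ℤ)) (k := p) (Dvd.intro_left _ (pow_succ _ i).symm) rfl ih
    rwa [← pow_succ, ← pow_mul, ← pow_succ] at h1

/-- Reduction modulo `q`. -/
def red1 (q : ℕ) (v : SP.V g) : Fin g → ZMod q × ZMod q := fun k => ((v k).1, (v k).2)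

theorem red1_eq {q : ℕ} {v w : SP.V g} (hvw : red1 q v = red1 q w) : Dv (q : ℤ) (v - w) := by
  rw [SP.B3.Dv_iff]
  intro k
  have h1 := Prod.ext_iff.1 (congrFun hvw k)
  have h2 : ((v k).1 : ZMod q) = (w k).1 := h1.1
  have h3 : ((v k).2 : ZMod q) = (w k).2 := h1.2
  rw [Pi.sub_apply, Prod.fst_sub, Prod.snd_sub]
  exact ⟨(ZMod.intCast_eq_intCast_iff_dvd_sub _ _ q).1 h2.symm,
    (ZMod.intCast_eq_intCast_iff_dvd_sub _ _ q).1 h3.symm⟩

/-- The images of the basis vectors modulo `q`. -/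
def red2 (q : ℕ) (A : Sp g) :
    (Fin g → Fin g → ZMod q × ZMod q) × (Fin g → Fin g → ZMod q × ZMod q) :=
  (fun i => red1 q (A (e i)), fun i => red1 q (A (f i)))

theorem red2_eq {q : ℕ} {A B : Sp g} (hAB : red2 q A = red2 q B) (v : SP.V g) :
    Dv (q : ℤ) (A v - B v) := by
  have h1 : ∀ i, Dv (q : ℤ) (A (e i) - B (e i)) := fun i =>
    red1_eq (congrFun (Prod.ext_iff.1 hAB).1 i)
  have h2 : ∀ i, Dv (q : ℤ) (A (f i) - B (f i)) := fun i =>
    red1_eq (congrFun (Prod.ext_iff.1 hAB).2 i)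
  have key : ∀ C : Sp g, C v = ∑ i, ((v i).1 • C (e i) + (v i).2 • C (f i)) := by
    intro C
    conv_lhs => rw [expand v]
    rw [map_sum]
    refine Finset.sum_congr rfl fun i _ => ?_
    rw [map_add, map_zsmul, map_zsmul]
  rw [key A, key B, ← Finset.sum_sub_distrib]
  refine Finset.sum_induction _ (Dv (q : ℤ)) (fun _ _ => SP.Dv.add) (SP.Dv.zero _) fun i _ => ?_
  have h3 : (v i).1 • A (e i) + (v i).2 • A (f i) - ((v i).1 • B (e i) + (v i).2 • B (f i)) =
      (v i).1 • (A (e i) - B (e i)) + (v i).2 • (A (f i) - B (f i)) := by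
    rw [smul_sub, smul_sub]; abel
  rw [h3]
  exact ((h1 i).smul _).add ((h2 i).smul _)

end level

section main

variable {m : ℕ} {G : Type w} [Group G] {a b : Fin m → G} (h : IsSurf a b)
variable {F : Type u} [Field F] {V : Type v} [AddCommGroup V] [Module F V]

/-- A representation which kills the Torelli group and a power of a twist kills the corresponding
level. -/
theorem level_of_power (hg : 3 ≤ m) (ρ : MCG a b →* Module.End F V)
    (hT : ∀ φ : MCG a b, (∀ x, cls h (φ.1 x) = cls h x) → ρ φ = 1)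
    {q : ℕ} (hq : q ≠ 0) (hu : ρ (uA h 0) ^ q = 1) {φ : MCG a b} (hφ : Cg (q : ℤ) (spm h φ)) :
    ρ φ = 1 := by
  obtain ⟨R, hR⟩ : ∃ R : Subgroup (MCG a b), R = ρ.ker := ⟨_, rfl⟩
  have hn : R.Normal := by rw [hR]; infer_instance
  obtain ⟨k0, hk0⟩ : ∃ k0 : Fin m, (k0 : ℕ) = 0 := ⟨⟨0, by omega⟩, rfl⟩
  have hval : ((uA h 0)⁻¹).1 = TA h k0 := by
    change (TrA h 0)⁻¹ = TA h k0
    rw [TrA, dif_pos (by omega : 0 < m), inv_inv]
    congr 1
    exact Fin.ext hk0.symm
  have hmem : (uA h 0)⁻¹ ^ (q : ℤ) ∈ R := by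
    rw [inv_zpow, Subgroup.inv_mem_iff, hR, MonoidHom.mem_ker, zpow_natCast, map_pow, hu]
  obtain ⟨r, hr, hr1⟩ := power_spm h hg (R := R) (m := (q : ℤ)) (by exact_mod_cast hq) (k := k0)
    (t := (uA h 0)⁻¹) hval hmem hφ
  have h1 : ρ (φ * r⁻¹) = 1 := by
    refine hT _ fun x => ?_
    have h2 := spm_cls h (φ * r⁻¹) x
    rw [hr1] at h2
    exact h2.symm
  have h3 : φ = φ * r⁻¹ * r := by group
  rw [hR, MonoidHom.mem_ker] at hr
  rw [h3, map_mul, h1, hr, one_mul]

/-- **Theorem.** An irreducible representation in characteristic `p` which kills the Torelli group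
and in which a twist is unipotent kills the mapping classes which act trivially on the homology
modulo `p`. -/
theorem irr_mod (hg : 3 ≤ m) {p : ℕ} [hp : Fact p.Prime] [CharP F p]
    (ρ : MCG a b →* Module.End F V) (hirr : Irr ρ)
    (hT : ∀ φ : MCG a b, (∀ x, cls h (φ.1 x) = cls h x) → ρ φ = 1)
    {r : ℕ} (hu : (ρ (uA h 0) - 1) ^ r = 0) {φ : MCG a b}
    (hφ : ∀ x, Dv (p : ℤ) (cls h (φ.1 x) - cls h x)) : ρ φ = 1 := by
  rcases subsingleton_or_nontrivial V with hV | hV
  · ext v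
    exact Subsingleton.elim _ _
  obtain ⟨v0, hv0⟩ := exists_ne (0 : V)
  have hEnd : Nontrivial (Module.End F V) := inferInstance
  have hchar : CharP (Module.End F V) p :=
    charP_of_injective_algebraMap (algebraMap F (Module.End F V)).injective p
  -- a power of the twist
  have hr : r ≤ p ^ (r + 1) := (Nat.lt_pow_self hp.out.one_lt).le.trans
    (Nat.pow_le_pow_right hp.out.pos (Nat.le_succ r))
  have hq : ρ (uA h 0) ^ p ^ (r + 1) = 1 := by
    have h1 := sub_pow_char_pow_of_commute p (r + 1) (Commute.one_right (ρ (uA h 0)))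
    rw [one_pow] at h1
    have h2 : (ρ (uA h 0) - 1) ^ p ^ (r + 1) = 0 := by
      obtain ⟨c, hc⟩ := Nat.exists_eq_add_of_le hr
      rw [hc, pow_add, hu, zero_mul]
    rw [h2] at h1
    exact (sub_eq_zero.1 h1.symm)
  have hlev : ∀ ψ : MCG a b, Cg ((p ^ (r + 1) : ℕ) : ℤ) (spm h ψ) → ρ ψ = 1 := fun ψ hψ =>
    level_of_power h hg ρ hT (pow_ne_zero _ hp.out.ne_zero) hq hψ
  -- the level subgroup
  obtain ⟨P, hP⟩ : ∃ P : Subgroup (MCG a b), ∀ ψ, ψ ∈ P ↔ Cg (p : ℤ) (spm h ψ) :=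
    ⟨{ carrier := {ψ | Cg (p : ℤ) (spm h ψ)}
       mul_mem' := fun {x y} hx hy => by
         change Cg (p : ℤ) (spm h (x * y))
         rw [map_mul]
         exact hx.mul hy
       one_mem' := by
         change Cg (p : ℤ) (spm h 1)
         rw [map_one]
         exact SP.Cg.one _
       inv_mem' := fun {x} hx => by
         change Cg (p : ℤ) (spm h x⁻¹)
         rw [map_inv]
         exact hx.inv }, fun ψ => Iff.rfl⟩
  have hPn : ∀ (γ ψ : MCG a b), ψ ∈ P → γ * ψ * γ⁻¹ ∈ P := by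
    intro γ ψ hψ
    rw [hP] at hψ ⊢
    rw [map_mul, map_mul, map_inv]
    exact hψ.conj _
  -- the image is finite
  have hfin : (Set.range ρ).Finite := by
    have : NeZero (p ^ (r + 1)) := ⟨pow_ne_zero _ hp.out.ne_zero⟩
    have hfac : Function.FactorsThrough ρ fun ψ => red2 (p ^ (r + 1)) (spm h ψ) := by
      intro x y hxy
      have h1 : ρ (x * y⁻¹) = 1 := by
        refine hlev _ fun v => ?_
        have h2 := red2_eq hxy ((spm h y)⁻¹ v)
        rw [map_mul, map_inv]
        have h3 : (spm h y) ((spm h y)⁻¹ v) = v := SP.sp_apply_inv _ _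
        rw [h3] at h2
        exact h2
      have h4 : x = x * y⁻¹ * y := by group
      rw [h4, map_mul, h1, one_mul]
    obtain ⟨E, hE⟩ := (Function.factorsThrough_iff _).1 hfac
    have h5 : Set.range ρ ⊆ Set.range E := by
      rintro _ ⟨x, rfl⟩
      exact ⟨_, (congrFun hE x).symm⟩
    exact (Set.finite_range E).subset h5
  have hPfin : (Set.range (ρ.comp P.subtype)).Finite :=
    hfin.subset (by rintro _ ⟨x, rfl⟩; exact ⟨x.1, rfl⟩)
  obtain ⟨v, hv, hvfix⟩ := exists_fixed (p := p) (ρ.comp P.subtype) hPfin (fun x => by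
    refine ⟨r, ?_⟩
    change ρ x.1 ^ p ^ r = 1
    rw [← map_pow]
    refine hlev _ ?_
    rw [map_pow]
    have h1 := cg_pow_pow ((hP _).1 x.2) r
    rwa [← Nat.cast_pow] at h1) hv0
  -- the fixed space
  obtain ⟨E, hE⟩ : ∃ E : Submodule F V, ∀ v, v ∈ E ↔ ∀ ψ ∈ P, ρ ψ v = v :=
    ⟨{ carrier := {v | ∀ ψ ∈ P, ρ ψ v = v}
       add_mem' := fun {x y} hx hy ψ hψ => by rw [map_add, hx ψ hψ, hy ψ hψ]
       zero_mem' := fun ψ _ => map_zero _
       smul_mem' := fun c x hx ψ hψ => by rw [map_smul, hx ψ hψ] }, fun v => Iff.rfl⟩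
  have hEinv : ∀ γ, ∀ u ∈ E, ρ γ u ∈ E := by
    intro γ u hu
    rw [hE] at hu ⊢
    intro ψ hψ
    have h1 : ψ * γ = γ * (γ⁻¹ * ψ * γ⁻¹⁻¹) := by group
    rw [← Module.End.mul_apply, ← map_mul, h1, map_mul, Module.End.mul_apply,
      hu _ (hPn γ⁻¹ ψ hψ)]
  rcases hirr E hEinv with h0 | h1
  · exfalso
    have h2 : v ∈ E := (hE v).2 fun ψ hψ => hvfix ⟨ψ, hψ⟩
    rw [h0, Submodule.mem_bot] at h2
    exact hv h2
  · ext v
    have h2 : v ∈ E := by rw [h1]; exact Submodule.mem_top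
    exact (hE v).1 h2 φ ((hP φ).2 ((cg_spm_iff h).2 hφ))

/-- The mapping classes which act trivially on the homology modulo `n`. -/
def LevM (n : ℤ) : Subgroup (MCG a b) where
  carrier := {ψ | Cg n (spm h ψ)}
  mul_mem' := fun {x y} hx hy => by
    change Cg n (spm h (x * y))
    rw [map_mul]
    exact hx.mul hy
  one_mem' := by
    change Cg n (spm h 1)
    rw [map_one]
    exact SP.Cg.one _
  inv_mem' := fun {x} hx => by
    change Cg n (spm h x⁻¹)
    rw [map_inv]
    exact hx.inv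

theorem mem_LevM {n : ℤ} {φ : MCG a b} :
    φ ∈ LevM h n ↔ ∀ x, Dv n (cls h (φ.1 x) - cls h x) := cg_spm_iff h

instance LevM_normal (n : ℤ) : (LevM h n).Normal := by
  refine ⟨fun x hx y => ?_⟩
  change Cg n (spm h (y * x * y⁻¹))
  rw [map_mul, map_mul, map_inv]
  exact SP.Cg.conj hx _

/-- **Theorem.** If the irreducible representations of dimension at most `D` kill the Torelli group
and the twists are unipotent in them, then all completely reducible representations of dimension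
at most `D` kill the mapping classes which act trivially on the homology modulo `n`, where `n = 0`
in the field. -/
theorem cr_mod (hg : 3 ≤ m) {D : ℕ}
    (hT : ∀ (V : Type v) [AddCommGroup V] [Module F V] [FiniteDimensional F V]
      (ρ : MCG a b →* Module.End F V), finrank F V ≤ D → Irr ρ →
        ∀ φ : MCG a b, (∀ x, cls h (φ.1 x) = cls h x) → ρ φ = 1)
    (hU : ∀ (V : Type v) [AddCommGroup V] [Module F V] [FiniteDimensional F V]
      (ρ : MCG a b →* Module.End F V), finrank F V ≤ D → Irr ρ →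
        ∃ r : ℕ, (ρ (uA h 0) - 1) ^ r = 0)
    {n : ℤ} (hn : (n : F) = 0)
    (V : Type v) [AddCommGroup V] [Module F V] [FiniteDimensional F V]
    (ρ : MCG a b →* Module.End F V) (hD : finrank F V ≤ D) (hρ : CompRed ρ) {φ : MCG a b}
    (hφ : ∀ x, Dv n (cls h (φ.1 x) - cls h x)) : ρ φ = 1 := by
  refine kill_of_irr (T := LevM h n) ?_ V ρ hD hρ φ ((mem_LevM h).2 hφ)
  intro V _ _ _ ρ hD hirr φ hφ
  rw [mem_LevM] at hφ
  have key : ∀ p : ℕ, CharP F p → ρ φ = 1 := by
    intro p hpF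
    have hdvd : (p : ℤ) ∣ n := (CharP.intCast_eq_zero_iff F p n).1 hn
    rcases Nat.eq_zero_or_pos p with h0 | h0
    · refine hT V ρ hD hirr φ fun x => ?_
      have h1 := hφ x
      rw [h0, Nat.cast_zero, zero_dvd_iff] at hdvd
      obtain ⟨w, hw⟩ := h1
      rw [hdvd, zero_smul, sub_eq_zero] at hw
      exact hw
    · have : NeZero p := ⟨h0.ne'⟩
      have hp : Fact p.Prime := ⟨CharP.char_is_prime_of_pos F p |>.out⟩
      obtain ⟨r, hr⟩ := hU V ρ hD hirr
      refine irr_mod h hg (p := p) ρ hirr (hT V ρ hD hirr) hr fun x => ?_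
      obtain ⟨w, hw⟩ := hφ x
      obtain ⟨c, hc⟩ := hdvd
      exact ⟨c • w, by rw [hw, hc, mul_smul]⟩
  obtain ⟨p, hp⟩ := CharP.exists F
  exact key p hp

end main

end Pool.Agent.H.MP_59b15d_al.H78E
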