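/-
On a space of dimension less than `6 ^ r` the twists act unipotently.
-/
import Pool.Agent.H.MP_59b15d_al.h52e.DegM

set_option autoImplicit false

namespace Pool.Agent.H.MP_59b15d_al.H78E

universe u v w

open Module Pool.Agent.H.MP_59b15d_al.Lin Pool.Agent.H.MP_59b15d_al.H52E
open Pool.MP_59b15d_al.H24T Pool.MP_59b15d_al.H76R Pool.MP_59b15d_al.H73E
open Pool.MP_59b15d_al.H60G Pool.MP_59b15d_al.H40L

section abstract

variable {F : Type u} [Field F] {Γ : Type w} [Group Γ]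
variable {V : Type v} [AddCommGroup V] [Module F V]

/-- The product of the operators `ρ (t (i + q)) - 1`, `i < s`. -/
def PR (ρ : Γ →* Module.End F V) (t : ℕ → Γ) (q s : ℕ) : Module.End F V :=
  ((List.range s).map fun i => ρ (t (i + q)) - 1).prod

theorem rho_mul_inv (ρ : Γ →* Module.End F V) (c : Γ) : ρ c * ρ c⁻¹ = 1 := by
  rw [← map_mul, mul_inv_cancel, map_one]

theorem rho_inv_mul (ρ : Γ →* Module.End F V) (c : Γ) : ρ c⁻¹ * ρ c = 1 := by
  rw [← map_mul, inv_mul_cancel, map_one]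

theorem conj_sub (ρ : Γ →* Module.End F V) (c x : Γ) :
    ρ (c * x * c⁻¹) - 1 = ρ c * (ρ x - 1) * ρ c⁻¹ := by
  rw [map_mul, map_mul, mul_sub, sub_mul, mul_one, rho_mul_inv]

theorem PR_conj (ρ : Γ →* Module.End F V) (t : ℕ → Γ) (q q' s : ℕ) (c : Γ)
    (hc : ∀ i, i < s → c * t (i + q) * c⁻¹ = t (i + q')) :
    PR ρ t q' s = ρ c * PR ρ t q s * ρ c⁻¹ := by
  have h1 := prod_conj ρ c ((List.range s).map fun i => t (i + q))
  rw [List.map_map, List.map_map] at h1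
  rw [PR, PR]
  refine Eq.trans ?_ h1
  congr 1
  refine List.map_congr_left fun i hi => ?_
  rw [Function.comp_apply, hc i (List.mem_range.1 hi)]

theorem PR_succ (ρ : Γ →* Module.End F V) (t : ℕ → Γ) (q s : ℕ) :
    PR ρ t q (s + 1) = (ρ (t q) - 1) * PR ρ t (q + 1) s := by
  rw [PR, PR, List.range_succ_eq_map, List.map_cons, List.prod_cons, List.map_map, Nat.zero_add]
  congr 2
  refine List.map_congr_left fun i _ => ?_
  rw [Function.comp_apply, Nat.succ_eq_add_one, add_assoc, add_comm 1 q]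

/-- What commutes with the `t (i + q)` commutes with the product. -/
theorem PR_comm (ρ : Γ →* Module.End F V) (t : ℕ → Γ) (q s : ℕ) {x : Γ}
    (hx : ∀ i, q ≤ i → Commute x (t i)) : ρ x * PR ρ t q s = PR ρ t q s * ρ x := by
  rw [PR]
  induction s with
  | zero => simp
  | succ s ih =>
    rw [List.range_succ, List.map_append, List.prod_append, ← mul_assoc, ih, mul_assoc, mul_assoc]
    congr 1
    simp only [List.map_cons, List.map_nil, List.prod_cons, List.prod_nil, mul_one]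
    rw [mul_sub, sub_mul, mul_one, one_mul, ← map_mul, ← map_mul, (hx (s + q) (by omega)).eq]

theorem pow_conj (ρ : Γ →* Module.End F V) {c x y : Γ} (h : c * x * c⁻¹ = y) (e : ℕ) :
    (ρ y - 1) ^ e = ρ c * (ρ x - 1) ^ e * ρ c⁻¹ := by
  rw [← h, conj_sub]
  induction e with
  | zero => rw [pow_zero, pow_zero, mul_one, rho_mul_inv]
  | succ e ih =>
    rw [pow_succ, ih, pow_succ]
    calc ρ c * (ρ x - 1) ^ e * ρ c⁻¹ * (ρ c * (ρ x - 1) * ρ c⁻¹)
        = ρ c * (ρ x - 1) ^ e * (ρ c⁻¹ * ρ c) * (ρ x - 1) * ρ c⁻¹ := by noncomm_ring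
      _ = _ := by rw [rho_inv_mul]; noncomm_ring

theorem pow_comm' (ρ : Γ →* Module.End F V) {c x : Γ} (h : Commute c x) (e : ℕ) :
    ρ c * (ρ x - 1) ^ e = (ρ x - 1) ^ e * ρ c := by
  have h1 : Commute (ρ c) (ρ x - 1) := by
    refine Commute.sub_right ?_ (Commute.one_right _)
    rw [commute_iff_eq, ← map_mul, ← map_mul, h.eq]
  exact (h1.pow_right e).eq

/-- The step: if `t 0` is a product of conjugates of `t 2` by elements which commute with `t 0` and
the `t i`, `3 ≤ i`. -/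
theorem tw_step (ρ : Γ →* Module.End F V) (t : ℕ → Γ) (e s : ℕ)
    (hlan : t 0 ∈ Subgroup.closure
      {x | ∃ u : Γ, Commute u (t 0) ∧ (∀ i, 3 ≤ i → Commute u (t i)) ∧ x = u * t 2 * u⁻¹})
    (h02 : Commute (t 2) (t 0))
    (c : Γ) (hc0 : c * t 0 * c⁻¹ = t 0) (hc : ∀ i, i < s + 1 → c * t (i + 2) * c⁻¹ = t (i + 3))
    (h : (ρ (t 0) - 1) ^ e * PR ρ t 3 (s + 1) = 0) :
    (ρ (t 0) - 1) ^ (e + 1) * PR ρ t 3 s = 0 := by
  -- move to `t 2`
  have h1 : (ρ (t 0) - 1) ^ e * ((ρ (t 2) - 1) * PR ρ t 3 s) = 0 := by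
    have e1 := PR_conj ρ t 2 3 (s + 1) c hc
    have e2 := pow_conj ρ hc0 e
    rw [e1, e2] at h
    have e3 : ρ c⁻¹ * (ρ c * (ρ (t 0) - 1) ^ e * ρ c⁻¹ * (ρ c * PR ρ t 2 (s + 1) * ρ c⁻¹)) * ρ c
        = (ρ c⁻¹ * ρ c) * (ρ (t 0) - 1) ^ e * (ρ c⁻¹ * ρ c) * PR ρ t 2 (s + 1) *
          (ρ c⁻¹ * ρ c) := by noncomm_ring
    rw [h, rho_inv_mul, mul_zero, zero_mul, one_mul, mul_one, mul_one] at e3
    rw [← PR_succ, ← e3]
  -- the elements
  have key : ∀ x ∈ Subgroup.closure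
      {x | ∃ u : Γ, Commute u (t 0) ∧ (∀ i, 3 ≤ i → Commute u (t i)) ∧ x = u * t 2 * u⁻¹},
      (ρ (t 0) - 1) ^ e * ((ρ x - 1) * PR ρ t 3 s) = 0 ∧ Commute x (t 0) := by
    intro x hx
    induction hx using Subgroup.closure_induction with
    | mem x hx =>
      obtain ⟨u, hu0, hu3, rfl⟩ := hx
      constructor
      · have e1 := pow_comm' ρ hu0 e
        have e2 := PR_comm ρ t 3 s (x := u⁻¹) fun i hi => (hu3 i hi).inv_left
        rw [conj_sub]
        calc (ρ (t 0) - 1) ^ e * (ρ u * (ρ (t 2) - 1) * ρ u⁻¹ * PR ρ t 3 s)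
            = ((ρ (t 0) - 1) ^ e * ρ u) * (ρ (t 2) - 1) * (ρ u⁻¹ * PR ρ t 3 s) := by
              noncomm_ring
          _ = ρ u * ((ρ (t 0) - 1) ^ e * ((ρ (t 2) - 1) * PR ρ t 3 s)) * ρ u⁻¹ := by
              rw [← e1, e2]; noncomm_ring
          _ = 0 := by rw [h1, mul_zero, zero_mul]
      · exact (hu0.mul_left h02).mul_left hu0.inv_left
    | one => exact ⟨by rw [map_one, sub_self, zero_mul, mul_zero], Commute.one_left _⟩
    | mul x y _ _ hx hy =>
      refine ⟨?_, hx.2.mul_left hy.2⟩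
      have e1 := pow_comm' ρ hx.2 e
      calc (ρ (t 0) - 1) ^ e * ((ρ (x * y) - 1) * PR ρ t 3 s)
          = ((ρ (t 0) - 1) ^ e * ρ x) * ((ρ y - 1) * PR ρ t 3 s) +
            (ρ (t 0) - 1) ^ e * ((ρ x - 1) * PR ρ t 3 s) := by rw [map_mul]; noncomm_ring
        _ = ρ x * ((ρ (t 0) - 1) ^ e * ((ρ y - 1) * PR ρ t 3 s)) +
            (ρ (t 0) - 1) ^ e * ((ρ x - 1) * PR ρ t 3 s) := by rw [← e1]; noncomm_ring
        _ = 0 := by rw [hx.1, hy.1, mul_zero, add_zero]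
    | inv x _ hx =>
      refine ⟨?_, hx.2.inv_left⟩
      have e1 := pow_comm' ρ hx.2.inv_left e
      have e2 : ρ x⁻¹ - 1 = -(ρ x⁻¹ * (ρ x - 1)) := by
        rw [mul_sub, rho_inv_mul]
        noncomm_ring
      calc (ρ (t 0) - 1) ^ e * ((ρ x⁻¹ - 1) * PR ρ t 3 s)
          = -(((ρ (t 0) - 1) ^ e * ρ x⁻¹) * ((ρ x - 1) * PR ρ t 3 s)) := by
            rw [e2]; noncomm_ring
        _ = 0 := by rw [← e1, mul_assoc, hx.1, mul_zero, neg_zero]
  rw [pow_succ, mul_assoc]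
  exact (key _ hlan).1

end abstract

section main

variable {m : ℕ} {G : Type w} [Group G] {a b : Fin m → G} (h : IsSurf a b)

theorem uA_comm (i j : ℕ) (hi : i < m) (hj : j < m) : Commute (uA h i) (uA h j) :=
  (treeGrp_u h).cAA i j hi hj

theorem uA_one {i : ℕ} (hi : m ≤ i) : uA h i = 1 := by
  apply Subtype.ext
  change TrA h i = 1
  rw [TrA, dif_neg (by omega)]

theorem uA_comm' (i j : ℕ) : Commute (uA h i) (uA h j) := by
  rcases Nat.lt_or_ge i m with hi | hi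
  · rcases Nat.lt_or_ge j m with hj | hj
    · exact uA_comm h i j hi hj
    · rw [uA_one h hj]; exact Commute.one_right _
  · rw [uA_one h hi]; exact Commute.one_left _

/-- The lantern relation in the form which is needed. -/
theorem lan_w (hm : 3 ≤ m) : uA h 0 ∈ Subgroup.closure
    {x | ∃ u : MCG a b, Commute u (uA h 0) ∧ (∀ i, 3 ≤ i → Commute u (uA h i)) ∧
      x = u * uA h 2 * u⁻¹} := by
  have h1 := TrA_mem_cjs h (lo := 0) (by omega)
  simp only [Nat.zero_add] at h1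
  have hU : Subgroup.closure ({TrA h 0, TrA h 1, TrA h 2, TrB h 1, TrB h 2, TrC h 0, TrC h 1} :
      Set (MulAut G)) ≤ Pool.MP_59b15d_al.H60G.MR h 0 3 ⊓ Subgroup.centralizer {TrA h 0} := by
    rw [Subgroup.closure_le]
    have T := treeGrp h
    intro x hx
    rw [SetLike.mem_coe, Subgroup.mem_inf, Subgroup.mem_centralizer_singleton_iff]
    simp only [Set.mem_insert_iff, Set.mem_singleton_iff] at hx
    rcases hx with rfl | rfl | rfl | rfl | rfl | rfl | rfl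
    · exact ⟨TrA_mem h (by omega) (by omega), rfl⟩
    · exact ⟨TrA_mem h (by omega) (by omega), T.cAA 1 0 (by omega) (by omega)⟩
    · exact ⟨TrA_mem h (by omega) (by omega), T.cAA 2 0 (by omega) (by omega)⟩
    · exact ⟨TrB_mem h (by omega) (by omega),
        (T.cAB 0 1 (by omega) (by omega) (by omega)).symm⟩
    · exact ⟨TrB_mem h (by omega) (by omega),
        (T.cAB 0 2 (by omega) (by omega) (by omega)).symm⟩
    · exact ⟨TrC_mem h (by omega) (by omega), (T.cAC 0 0 (by omega) (by omega)).symm⟩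
    · exact ⟨TrC_mem h (by omega) (by omega), (T.cAC 0 1 (by omega) (by omega)).symm⟩
  have hS : {x | ∃ u ∈ Pool.MP_59b15d_al.H60G.MR h 0 3 ⊓ Subgroup.centralizer {TrA h 0},
      x = u * TrA h 2 * u⁻¹} ⊆ (MCG a b : Set (MulAut G)) := by
    rintro _ ⟨k, hk, rfl⟩
    have hk' := MR_le_MCG h 0 3 hk.1
    exact Subgroup.mul_mem _ (Subgroup.mul_mem _ hk' (uA h 2).2) (Subgroup.inv_mem _ hk')
  have h2 : TrA h 0 ∈ Subgroup.closure
      {x | ∃ u ∈ Pool.MP_59b15d_al.H60G.MR h 0 3 ⊓ Subgroup.centralizer {TrA h 0},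
        x = u * TrA h 2 * u⁻¹} := by
    refine Subgroup.closure_mono ?_ h1
    rintro _ ⟨u, hu, rfl⟩
    exact ⟨u, hU hu, rfl⟩
  have h3 := mem_closure_of_val hS (x := uA h 0) h2
  refine Subgroup.closure_mono ?_ h3
  rintro y ⟨k, hk, hy⟩
  rw [Subgroup.mem_inf, Subgroup.mem_centralizer_singleton_iff] at hk
  refine ⟨⟨k, MR_le_MCG h 0 3 hk.1⟩, Subtype.ext hk.2, fun i hi => ?_, Subtype.ext hy⟩
  rcases Nat.lt_or_ge i m with him | him
  · apply Subtype.ext
    exact MR_comm h hi hk.1 (TrA_mem h (lo := i) (hi := i + 1) le_rfl (by omega))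
  · rw [uA_one h him]; exact Commute.one_right _

/-- Shifting the handles `2, …, s + 2`. -/
theorem exists_shift (s : ℕ) (hs : s + 4 ≤ m) : ∃ c : MCG a b, c * uA h 0 * c⁻¹ = uA h 0 ∧
    ∀ i, i < s + 1 → c * uA h (i + 2) * c⁻¹ = uA h (i + 3) := by
  obtain ⟨β, b0, b1, b2, b3⟩ := exists_rotA h (s + 3) 1 (by omega)
  obtain ⟨γ, g0, g1, g2, g3⟩ := exists_rotA h 1 1 (by omega)
  have hβ : β ∈ MCG a b := MR_le_MCG h _ _ b0
  have hγ : γ ∈ MCG a b := MR_le_MCG h _ _ g0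
  refine ⟨⟨γ * β, Subgroup.mul_mem _ hγ hβ⟩, ?_, fun i hi => ?_⟩
  · apply Subtype.ext
    change γ * β * TrA h 0 * (γ * β)⁻¹ = TrA h 0
    have e : γ * β * TrA h 0 * (γ * β)⁻¹ = γ * (β * TrA h 0 * β⁻¹) * γ⁻¹ := by group
    rw [e, b1 0 (by omega)]
    exact g2 0 (by omega)
  · apply Subtype.ext
    change γ * β * TrA h (i + 2) * (γ * β)⁻¹ = TrA h (i + 3)
    have e : γ * β * TrA h (i + 2) * (γ * β)⁻¹ = γ * (β * TrA h (i + 2) * β⁻¹) * γ⁻¹ := by
      group
    rw [e, b1 (i + 2) (by omega)]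
    exact g3 _ (by omega)

/-- Moving the handles `0, …, r - 1` to the handles `0, 3, …, r + 1`. -/
theorem exists_gap (r : ℕ) (hr : 0 < r) (hrm : r + 2 ≤ m) :
    ∃ c : MCG a b, c * uA h 0 * c⁻¹ = uA h 0 ∧
      ∀ i, i < r - 1 → c * uA h (i + 1) * c⁻¹ = uA h (i + 3) := by
  obtain ⟨β, b0, b1, b2, b3⟩ := exists_rotA h r 2 (by omega)
  obtain ⟨γ, g0, g1, g2, g3⟩ := exists_rotA h 2 1 (by omega)
  have hβ : β ∈ MCG a b := MR_le_MCG h _ _ b0
  have hγ : γ ∈ MCG a b := MR_le_MCG h _ _ g0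
  refine ⟨⟨γ * β, Subgroup.mul_mem _ hγ hβ⟩, ?_, fun i hi => ?_⟩
  · apply Subtype.ext
    change γ * β * TrA h 0 * (γ * β)⁻¹ = TrA h 0
    have e : γ * β * TrA h 0 * (γ * β)⁻¹ = γ * (β * TrA h 0 * β⁻¹) * γ⁻¹ := by group
    rw [e, b1 0 (by omega)]
    exact g2 0 (by omega)
  · apply Subtype.ext
    change γ * β * TrA h (i + 1) * (γ * β)⁻¹ = TrA h (i + 3)
    have e : γ * β * TrA h (i + 1) * (γ * β)⁻¹ = γ * (β * TrA h (i + 1) * β⁻¹) * γ⁻¹ := by
      group
    rw [e, b1 (i + 1) (by omega)]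
    exact g3 _ (by omega)

/-- **Theorem.** If the product of `ρ t - 1` over the twists `t` in `r` handles is zero,
`1 ≤ r ≤ g - 2`, then the twists act unipotently, `(ρ t - 1) ^ r = 0`. -/
theorem twist_unip_of {F : Type u} [Field F] {r : ℕ} (hr : 0 < r) (hrm : r + 2 ≤ m)
    {V : Type v} [AddCommGroup V] [Module F V]
    (ρ : MCG a b →* Module.End F V)
    (hd : ((List.range r).map fun k => ρ (uA h k) - 1).prod = 0) :
    (ρ (uA h 0) - 1) ^ r = 0 := by
  have hd : PR ρ (uA h) 0 r = 0 := hd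
  -- the start
  have h0 : (ρ (uA h 0) - 1) ^ 1 * PR ρ (uA h) 3 (r - 1) = 0 := by
    obtain ⟨c, c1, c2⟩ := exists_gap h r hr hrm
    have e1 : PR ρ (uA h) 0 (r - 1 + 1) = (ρ (uA h 0) - 1) * PR ρ (uA h) (0 + 1) (r - 1) :=
      PR_succ ρ (uA h) 0 (r - 1)
    rw [Nat.sub_add_cancel hr, hd] at e1
    have e2 := PR_conj ρ (uA h) 1 3 (r - 1) c c2
    have e3 := conj_sub ρ c (uA h 0)
    rw [c1] at e3
    rw [pow_one, e2, e3]
    calc ρ c * (ρ (uA h 0) - 1) * ρ c⁻¹ * (ρ c * PR ρ (uA h) 1 (r - 1) * ρ c⁻¹)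
        = ρ c * ((ρ (uA h 0) - 1) * (ρ c⁻¹ * ρ c) * PR ρ (uA h) 1 (r - 1)) * ρ c⁻¹ := by
          noncomm_ring
      _ = 0 := by rw [rho_inv_mul, mul_one, ← Nat.zero_add 1, ← e1, mul_zero, zero_mul]
  -- the induction
  have key : ∀ s, s ≤ r - 1 →
      (ρ (uA h 0) - 1) ^ (s + 1) * PR ρ (uA h) 3 (r - 1 - s) = 0 := by
    intro s
    induction s with
    | zero => intro _; exact h0
    | succ s ih =>
      intro hs
      have h1 := ih (by omega)
      have e1 : r - 1 - s = (r - 1 - (s + 1)) + 1 := by omega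
      rw [e1] at h1
      obtain ⟨c, c1, c2⟩ := exists_shift h (r - 1 - (s + 1)) (by omega)
      exact tw_step ρ (uA h) (s + 1) (r - 1 - (s + 1)) (lan_w h (by omega))
        (uA_comm' h 2 0) c c1 c2 h1
  have h2 := key (r - 1) le_rfl
  rw [Nat.sub_self, Nat.sub_add_cancel hr] at h2
  simpa [PR] using h2

/-- **Theorem.** In a representation of dimension less than `6 ^ r`, `3 r ≤ g`, over any field the
twists act unipotently. -/
theorem twist_unip {F : Type u} [Field F] {r : ℕ} (hrm : 3 * r ≤ m)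
    {V : Type v} [AddCommGroup V] [Module F V] [FiniteDimensional F V]
    (ρ : MCG a b →* Module.End F V) (hdim : finrank F V < 6 ^ r) :
    (ρ (uA h 0) - 1) ^ r = 0 := by
  rcases Nat.eq_zero_or_pos r with hr | hr
  · subst hr
    rw [pow_zero, Nat.lt_one_iff] at hdim
    have : Subsingleton V := finrank_zero_iff.1 hdim
    ext v
    exact Subsingleton.elim _ _
  exact twist_unip_of h hr (by omega) ρ (deg_A h hrm ρ hdim)

end main

end Pool.Agent.H.MP_59b15d_al.H78E
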