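/-
Assembly: representations in which a product of operators `ρ t - 1` over the twists in fewer than
half of the handles vanishes; representations with finite image in characteristic zero.
-/
import Pool.Agent.H.MP_59b15d_al.h52e.Front
import Pool.Agent.H.MP_59b15d_al.h60e.EvM
import Pool.Agent.H.MP_59b15d_al.h8q.Semi
import Pool.Agent.H.MP_59b15d_al.lin.SipKer

set_option autoImplicit false

namespace Pool.Agent.H.MP_59b15d_al.H78E

universe u v w

open Module Pool.MP_59b15d_al.H24T Pool.MP_59b15d_al.H76R Pool.MP_59b15d_al.H73E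
open Pool.MP_59b15d_al.H60G Pool.MP_59b15d_al.H40L
open Pool.Agent.H.MP_59b15d_al.Lin Pool.Agent.H.MP_59b15d_al.H52E
open Pool.Agent.H.MP_59b15d_al.SP (cls Dv Cg spm Sp power_spm cg_spm_iff spm_cls cls_surj)

section abstract

variable {F : Type u} [Field F] {V : Type v} [AddCommGroup V] [Module F V]
variable {Γ : Type w} [Group Γ]

/-- Passing to the inverses in a product of the operators `ρ x - 1`. -/
theorem prod_inv_zero (ρ : Γ →* Module.End F V) (x : ℕ → Γ)
    (hx : ∀ i j, Commute (x i) (x j)) (r : ℕ)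
    (h : ((List.range r).map fun i => ρ (x i) - 1).prod = 0) :
    ((List.range r).map fun i => ρ (x i)⁻¹ - 1).prod = 0 := by
  have key : ∀ l : List ℕ, ∃ c : Module.End F V,
      (∀ j, Commute (ρ (x j)) c) ∧ (l.map fun i => ρ (x i)⁻¹ - 1).prod =
        c * (l.map fun i => ρ (x i) - 1).prod := by
    intro l
    induction l with
    | nil => exact ⟨1, fun j => Commute.one_right _, by simp⟩
    | cons i l ih =>
      obtain ⟨c, hc, he⟩ := ih
      refine ⟨-ρ (x i)⁻¹ * c, fun j => ?_, ?_⟩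
      · refine Commute.mul_right (Commute.neg_right ?_) (hc j)
        rw [commute_iff_eq, ← map_mul, ← map_mul, (hx j i).inv_right.eq]
      · have h1 : (ρ (x i) - 1) * c = c * (ρ (x i) - 1) := by
          rw [sub_mul, mul_sub, one_mul, mul_one, (hc i).eq]
        have h2 : ρ (x i)⁻¹ - 1 = -ρ (x i)⁻¹ * (ρ (x i) - 1) := by
          rw [mul_sub, neg_mul, ← map_mul, inv_mul_cancel, map_one, mul_one]
          abel
        rw [List.map_cons, List.prod_cons, List.map_cons, List.prod_cons, he, h2]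
        calc -ρ (x i)⁻¹ * (ρ (x i) - 1) * (c * (l.map fun i => ρ (x i) - 1).prod)
            = -ρ (x i)⁻¹ * ((ρ (x i) - 1) * c) * (l.map fun i => ρ (x i) - 1).prod := by
              noncomm_ring
          _ = _ := by rw [h1]; noncomm_ring
  obtain ⟨c, _, he⟩ := key (List.range r)
  rw [he, h, mul_zero]

/-- A unipotent operator of finite order in characteristic zero is trivial. -/
theorem unip_finite [CharZero F] {x : Module.End F V} {n : ℕ} (hn : n ≠ 0) (hx : x ^ n = 1) :
    ∀ r : ℕ, (x - 1) ^ (r + 1) = 0 → x - 1 = 0 := by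
  intro r
  induction r with
  | zero => intro h; simpa using h
  | succ r ih =>
    intro h
    refine ih ?_
    have h1 : (x - 1) ^ (r + 1) * ∑ i ∈ Finset.range n, x ^ i = 0 := by
      rw [pow_succ, mul_assoc, mul_geom_sum, hx, sub_self, mul_zero]
    have h2 : (x - 1) ^ (r + 1) * ∑ i ∈ Finset.range n, x ^ i =
        (x - 1) ^ (r + 1) * (n : Module.End F V) := by
      have h3 : ∀ i, (x - 1) ^ (r + 1) * x ^ i = (x - 1) ^ (r + 1) := by
        intro i
        have h4 : x ^ i = 1 + (x - 1) * ∑ j ∈ Finset.range i, x ^ j := by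
          rw [mul_geom_sum]; abel
        rw [h4, mul_add, mul_one, ← mul_assoc, ← pow_succ, h, zero_mul, add_zero]
      rw [Finset.mul_sum, Finset.sum_congr rfl fun i _ => h3 i, Finset.sum_const,
        Finset.card_range, nsmul_eq_mul, Nat.cast_comm]
    rw [h2] at h1
    ext v
    have h5 := LinearMap.congr_fun h1 v
    rw [← Nat.cast_comm, Module.End.mul_apply, Module.End.natCast_apply, LinearMap.zero_apply,
      ← Nat.cast_smul_eq_nsmul F, smul_eq_zero] at h5
    rcases h5 with h5 | h5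
    · exact absurd h5 (by exact_mod_cast hn)
    · rw [h5, LinearMap.zero_apply]

/-- The elements of a group with finite image have finite order. -/
theorem exists_order (ρ : Γ →* Module.End F V) (hfin : (Set.range ρ).Finite) (x : Γ) :
    ∃ n : ℕ, n ≠ 0 ∧ ρ x ^ n = 1 := by
  have : Finite (Set.range ρ) := hfin
  obtain ⟨i, j, hij, he⟩ := Finite.exists_ne_map_eq_of_infinite
    (fun n : ℕ => (⟨ρ (x ^ n), ⟨_, rfl⟩⟩ : Set.range ρ))
  have he' : ρ (x ^ i) = ρ (x ^ j) := congrArg Subtype.val he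
  have key : ∀ i j : ℕ, i < j → ρ (x ^ i) = ρ (x ^ j) → ρ x ^ (j - i) = 1 := by
    intro i j hij he
    have h1 : x ^ j = x ^ i * x ^ (j - i) := by rw [← pow_add]; congr 1; omega
    have h2 : ρ (x ^ i)⁻¹ * ρ (x ^ j) = ρ x ^ (j - i) := by
      rw [h1, map_mul, ← mul_assoc, ← map_mul, inv_mul_cancel, map_one, one_mul, map_pow]
    rw [← h2, ← he, ← map_mul, inv_mul_cancel, map_one]
  rcases Nat.lt_or_gt_of_ne hij with h1 | h1
  · exact ⟨j - i, by omega, key i j h1 he'⟩
  · exact ⟨i - j, by omega, key j i h1 he'.symm⟩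

end abstract

section main

variable {m : ℕ} {G : Type w} [Group G] {a b : Fin m → G} (h : IsSurf a b)
variable {F : Type u} [Field F]

/-- An irreducible representation which kills the Torelli group and in which the twists are
unipotent kills the mapping classes trivial modulo `n`, if `n = 0` in the field. -/
theorem irr_level (hg : 3 ≤ m) {V : Type v} [AddCommGroup V] [Module F V]
    (ρ : MCG a b →* Module.End F V) (hirr : H52E.Irr ρ)
    (hT : ∀ φ : MCG a b, (∀ x, cls h (φ.1 x) = cls h x) → ρ φ = 1)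
    (hu : ∃ r : ℕ, (ρ (uA h 0) - 1) ^ r = 0) {n : ℤ} (hn : (n : F) = 0) {φ : MCG a b}
    (hφ : φ ∈ LevM h n) : ρ φ = 1 := by
  rw [mem_LevM] at hφ
  have key : ∀ p : ℕ, CharP F p → ρ φ = 1 := by
    intro p hpF
    have hdvd : (p : ℤ) ∣ n := (CharP.intCast_eq_zero_iff F p n).1 hn
    rcases Nat.eq_zero_or_pos p with h0 | h0
    · refine hT φ fun x => ?_
      have h1 := hφ x
      rw [h0, Nat.cast_zero, zero_dvd_iff] at hdvd
      obtain ⟨w, hw⟩ := h1
      rw [hdvd, zero_smul, sub_eq_zero] at hw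
      exact hw
    · have : NeZero p := ⟨h0.ne'⟩
      have hp : Fact p.Prime := ⟨CharP.char_is_prime_of_pos F p |>.out⟩
      obtain ⟨r, hr⟩ := hu
      refine irr_mod h hg (p := p) ρ hirr hT hr fun x => ?_
      obtain ⟨w, hw⟩ := hφ x
      obtain ⟨c, hc⟩ := hdvd
      exact ⟨c • w, by rw [hw, hc, mul_smul]⟩
  obtain ⟨p, hp⟩ := CharP.exists F
  exact key p hp

/-- The list of the twists in the first `k` handles. -/
noncomputable def lA (k : ℕ) : List (MCG a b) := (List.range k).map (uA h)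

theorem np_lA {V : Type v} [AddCommGroup V] [Module F V] (ρ : MCG a b →* Module.End F V) (k : ℕ) :
    H8Q.np ρ (lA h k) = ((List.range k).map fun i => ρ (uA h i) - 1).prod := by
  rw [H8Q.np, lA, List.map_map]
  rfl

theorem np_irr (hcore : Core.{u, v, w} h F) (hm : 4 ≤ m) {k : ℕ} (hk : 2 * k + 2 ≤ m)
    (V : Type v) [AddCommGroup V] [Module F V] [FiniteDimensional F V]
    (ρ : MCG a b →* Module.End F V) (hirr : H8Q.Irr ρ) (h0 : H8Q.np ρ (lA h k) = 0)
    {n : ℤ} (hn : (n : F) = 0) {φ : MCG a b} (hφ : φ ∈ LevM h n) : ρ φ = 1 := by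
  have hV := hirr.1
  rcases k with _ | k
  · exfalso
    rw [np_lA, List.range_zero, List.map_nil, List.prod_nil] at h0
    exact one_ne_zero h0
  · rw [np_lA] at h0
    exact irr_level h (by omega) ρ hirr.2 (hcore V ρ hirr.2 k (by omega) h0)
      ⟨k + 1, twist_unip_of h (Nat.succ_pos k) (by omega) ρ h0⟩ hn hφ

/-- **Completely reducible representations** in which the product of the operators `ρ t - 1` over
the twists of `k` handles vanishes, `2 k + 2 ≤ g`. -/
theorem np_cr (hcore : Core.{u, v, w} h F) (hm : 4 ≤ m) {k : ℕ} (hk : 2 * k + 2 ≤ m)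
    (V : Type v) [AddCommGroup V] [Module F V] [FiniteDimensional F V]
    (ρ : MCG a b →* Module.End F V) (hρ : CompRed ρ)
    (h0 : ((List.range k).map fun i => ρ (uA h i) - 1).prod = 0)
    {n : ℤ} (hn : (n : F) = 0) {φ : MCG a b} (hφ : φ ∈ LevM h n) : ρ φ = 1 :=
  H8Q.triv_of_irr (T := (LevM h n : Set (MCG a b))) (l := lA h k)
    (fun V _ _ _ ρ hirr h0 _ hφ => np_irr h hcore hm hk V ρ hirr h0 hn hφ) V ρ hρ
    (by rw [np_lA]; exact h0) φ hφ

/-- **Arbitrary representations** in which the product of the operators `ρ t - 1` over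
the twists of `k` handles vanishes, `2 k + 2 ≤ g`. -/
theorem np_unip (hcore : Core.{u, v, w} h F) (hm : 4 ≤ m) {k : ℕ} (hk : 2 * k + 2 ≤ m)
    (V : Type v) [AddCommGroup V] [Module F V] [FiniteDimensional F V]
    (ρ : MCG a b →* Module.End F V)
    (h0 : ((List.range k).map fun i => ρ (uA h i) - 1).prod = 0)
    (l : List (MCG a b)) (hl : ∀ φ ∈ l, ∀ x, cls h ((φ : MulAut G) x) = cls h x)
    (hlen : finrank F V ≤ l.length) : (l.map (fun φ => ρ φ - 1)).prod = 0 :=
  H8Q.unip_of_irr (T := (LevM h 0 : Set (MCG a b))) (l := lA h k)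
    (fun V _ _ _ ρ hirr h0 _ hφ => np_irr h hcore hm hk V ρ hirr h0 (by simp) hφ) V ρ
    (by rw [np_lA]; exact h0) l (fun φ hφ => by
      change φ ∈ LevM h 0
      rw [mem_LevM]
      intro x
      exact ⟨0, by rw [hl φ hφ x, sub_self, smul_zero]⟩) hlen

/-- A representation in which the twist of the first handle is trivial is trivial. -/
theorem triv_of_uA (hm : 0 < m) {V : Type v} [AddCommGroup V] [Module F V]
    (ρ : MCG a b →* Module.End F V) (h0 : ρ (uA h 0) = 1) (φ : MCG a b) : ρ φ = 1 := by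
  obtain ⟨n, rfl⟩ : ∃ n, m = n + 1 := ⟨m - 1, by omega⟩
  have T := treeGrp_u h
  obtain ⟨K, hK⟩ : ∃ K : Subgroup (MCG a b), K = ρ.ker := ⟨_, rfl⟩
  have nK : K.Normal := by rw [hK]; infer_instance
  have hA0 : uA h 0 ∈ K := by rw [hK]; exact h0
  have hconj : ∀ x y : MCG a b, x * y * x = y * x * y → x ∈ K → y ∈ K := by
    intro x y hxy hx
    have h1 : y = (x * y) * x * (x * y)⁻¹ := by
      rw [hxy, mul_inv_rev]
      group
    rw [h1]
    exact nK.conj_mem x hx _
  have hB0 : uB h 0 ∈ K := hconj _ _ (T.AB 0 (by omega)) hA0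
  have hB : ∀ i, i < n + 1 → uB h i ∈ K := by
    intro i hi
    obtain ⟨c, hc⟩ := conj_uB h i hi
    rw [hc]
    exact nK.conj_mem _ hB0 _
  have hC : ∀ i, i + 1 < n + 1 → uC h i ∈ K := by
    intro i hi
    obtain ⟨c, hc⟩ := conj_uC h i hi
    rw [hc]
    exact nK.conj_mem _ hB0 _
  have hA : ∀ i, i < n + 1 → uA h i ∈ K := fun i hi => hconj _ _ (T.AB i hi).symm (hB i hi)
  have h1 := Pool.MP_59b15d_al.H60E.hgen_mcg h K hA hB hC
  have h2 : φ ∈ K := by rw [h1]; exact Subgroup.mem_top φ
  rw [hK] at h2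
  exact h2

/-- **Finite image in characteristic zero.** -/
theorem triv_of_finite [CharZero F] {V : Type v} [AddCommGroup V] [Module F V]
    (ρ : MCG a b →* Module.End F V) (hfin : (Set.range ρ).Finite)
    {r : ℕ} (hr : 0 < r) (hrm : r + 2 ≤ m)
    (hd : ((List.range r).map fun k => ρ (uA h k) - 1).prod = 0) (φ : MCG a b) : ρ φ = 1 := by
  obtain ⟨n, hn, h1⟩ := exists_order ρ hfin (uA h 0)
  obtain ⟨s, rfl⟩ : ∃ s, r = s + 1 := ⟨r - 1, by omega⟩
  have h2 := unip_finite hn h1 s (twist_unip_of h hr hrm ρ hd)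
  exact triv_of_uA h (by omega) ρ (sub_eq_zero.1 h2) φ

/-- In every representation of dimension less than `max 36 (2 ^ (g - 1))` some product of the
operators `ρ t - 1` vanishes. -/
theorem exists_prod (hmix : Mixed.{u, v, w} h F) (hm : 6 ≤ m)
    {V : Type v} [AddCommGroup V] [Module F V] [FiniteDimensional F V]
    (ρ : MCG a b →* Module.End F V) (hdim : finrank F V < max 36 (2 ^ (m - 1))) :
    ∃ r, 0 < r ∧ r + 2 ≤ m ∧ ((List.range r).map fun k => ρ (uA h k) - 1).prod = 0 := by
  rcases lt_max_iff.1 hdim with h1 | h1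
  · exact ⟨2, by omega, by omega, deg_A h (r := 2) (by omega) ρ (by omega)⟩
  · rcases Nat.even_or_odd' m with ⟨u, hu | hu⟩
    · exact ⟨u - 3 + 2, by omega, by omega, hmix V ρ (u - 3) 2 (by omega) (by omega)
        (h1.trans (by rw [hu]; exact pow_even (by omega)))⟩
    · exact ⟨u - 1 + 1, by omega, by omega, hmix V ρ (u - 1) 1 le_rfl (by omega)
        (h1.trans (by rw [show m - 1 = 2 * u by omega]; exact pow_odd (by omega)))⟩

end main

end Pool.Agent.H.MP_59b15d_al.H78E
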