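/-
The classes and the commutator subgroup.
-/
import Pool.Agent.H.MP_59b15d_al.h11c.Hone

set_option autoImplicit false

namespace Pool.Agent.H.MP_59b15d_al.H78E

open Pool.MP_59b15d_al.H24T Pool.MP_59b15d_al.H76R
open Pool.Agent.H.MP_59b15d_al.SP

universe w

variable {m : ℕ} {G : Type w} [Group G] {a b : Fin m → G}

/-- An element of class zero lies in the commutator subgroup. -/
theorem comm_of_cls (h : IsSurf a b) {x : G} (hx : cls h x = 0) : x ∈ commutator G := by
  classical
  let o : G →* Abelianization G := Abelianization.of
  let ψ : G →* Abelianization G :=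
    { toFun := fun x => ∏ i, (o (a i) ^ (cls h x i).1 * o (b i) ^ (cls h x i).2)
      map_one' := by
        rw [cls_one]
        refine Finset.prod_eq_one fun i _ => ?_
        simp
      map_mul' := fun x y => by
        rw [cls_mul, ← Finset.prod_mul_distrib]
        refine Finset.prod_congr rfl fun i _ => ?_
        rw [Pi.add_apply, Prod.fst_add, Prod.snd_add, zpow_add, zpow_add]
        exact mul_mul_mul_comm _ _ _ _ }
  have h1 : o = ψ := by
    refine hom_ext h ?_ ?_
    · intro i
      change o (a i) = ∏ j, (o (a j) ^ (cls h (a i) j).1 * o (b j) ^ (cls h (a i) j).2)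
      rw [cls_a, Finset.prod_eq_single i]
      · rw [e_self]; simp
      · intro j _ hj
        rw [e_ne hj]; simp
      · simp
    · intro i
      change o (b i) = ∏ j, (o (a j) ^ (cls h (b i) j).1 * o (b j) ^ (cls h (b i) j).2)
      rw [cls_b, Finset.prod_eq_single i]
      · rw [f_self]; simp
      · intro j _ hj
        rw [f_ne hj]; simp
      · simp
  have h2 : o x = 1 := by
    rw [h1]
    change ∏ j, (o (a j) ^ (cls h x j).1 * o (b j) ^ (cls h x j).2) = 1
    rw [hx]
    refine Finset.prod_eq_one fun i _ => ?_
    simp
  have h3 : x ∈ (Abelianization.of : G →* Abelianization G).ker := h2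
  rwa [Abelianization.ker_of] at h3

/-- An automorphism which fixes the classes is trivial modulo the commutator subgroup. -/
theorem comm_of_tor (h : IsSurf a b) {φ : MulAut G} (hφ : ∀ x, cls h (φ x) = cls h x) (x : G) :
    φ x * x⁻¹ ∈ commutator G :=
  comm_of_cls h (by rw [cls_mul, cls_inv, hφ, add_neg_cancel])

end Pool.Agent.H.MP_59b15d_al.H78E
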