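/-
Perfect central extensions in positive characteristic: in the irreducible representations in which
the Torelli group acts by scalars and the twists are unipotent, the `p`-th powers of the twists act
trivially.
-/
import Pool.Agent.H.MP_59b15d_al.deg.LiftG

set_option autoImplicit false

namespace Pool.Agent.H.MP_59b15d_al.H78E

universe u v w x

open Module Pool.MP_59b15d_al.H24T Pool.MP_59b15d_al.H76R Pool.MP_59b15d_al.H73E
open Pool.MP_59b15d_al.H60G Pool.MP_59b15d_al.H40L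
open Pool.Agent.H.MP_59b15d_al.Lin Pool.Agent.H.MP_59b15d_al.Lft
open Pool.Agent.H.MP_59b15d_al.H52E (Tor mem_Tor Irr)
open Pool.Agent.H.MP_59b15d_al.SP (cls Dv Cg spm Sp power_spm cg_spm_iff spm_cls cls_surj spm_TA)

section abstract

variable {F : Type u} [Field F] {V : Type v} [AddCommGroup V] [Module F V]

/-- A group which is generated by elements of `p`-power order and whose quotient by the centre is a
finite `p`-group is a `p`-group. -/
theorem isPGroup_of_center {p : ℕ} [Fact p.Prime] {R : Type*} [Group R]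
    (hfin : Finite (R ⧸ Subgroup.center R)) (hp : IsPGroup p (R ⧸ Subgroup.center R)) {k : ℕ}
    (hgen : Subgroup.closure {x : R | x ^ p ^ k = 1} = ⊤) :
    ∃ n : ℕ, ∀ x : R, x ^ p ^ n = 1 := by
  have : (Subgroup.center R).FiniteIndex := Subgroup.finiteIndex_of_finite_quotient
  obtain ⟨n, hn⟩ := IsPGroup.iff_card.1 hp
  have hidx : (Subgroup.center R).index = p ^ n := by rw [Subgroup.index, hn]
  refine ⟨n + k, fun x => ?_⟩
  have ht : ∀ y z : R, (y * z) ^ p ^ (n + k) = y ^ p ^ (n + k) * z ^ p ^ (n + k) := by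
    have h1 : ∀ y : R, ((MonoidHom.transferCenterPow R y : Subgroup.center R) : R) = y ^ p ^ n :=
      fun y => by rw [MonoidHom.transferCenterPow_apply, hidx]
    intro y z
    have h2 : (y * z) ^ p ^ n = y ^ p ^ n * z ^ p ^ n := by
      rw [← h1, ← h1, ← h1, map_mul]
      rfl
    have h3 : Commute (y ^ p ^ n) (z ^ p ^ n) := by
      rw [← h1 y]
      exact (Subgroup.mem_center_iff.1 (MonoidHom.transferCenterPow R y).2 _).symm
    rw [pow_add, pow_mul, h2, h3.mul_pow, ← pow_mul, ← pow_mul]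
  let μ : R →* R := MonoidHom.mk' (fun y => y ^ p ^ (n + k)) ht
  have hμ : ∀ y : R, μ y = y ^ p ^ (n + k) := fun y => rfl
  have h1 : μ = 1 := by
    refine MonoidHom.eq_of_eqOn_dense hgen fun y hy => ?_
    have hy' : y ^ p ^ k = 1 := hy
    rw [hμ, add_comm, pow_add, pow_mul, hy', one_pow]
    rfl
  rw [← hμ, h1]
  rfl

/-- A unipotent operator has `p`-power order. -/
theorem pow_of_unip {p : ℕ} [hp : Fact p.Prime] [CharP F p] [Nontrivial V] {A : Module.End F V}
    {r : ℕ} (hu : (A - 1) ^ r = 0) : A ^ p ^ (r + 1) = 1 := by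
  have hchar : CharP (Module.End F V) p :=
    charP_of_injective_algebraMap (algebraMap F (Module.End F V)).injective p
  have hr : r ≤ p ^ (r + 1) := (Nat.lt_pow_self hp.out.one_lt).le.trans
    (Nat.pow_le_pow_right hp.out.pos (Nat.le_succ r))
  have h1 := sub_pow_char_pow_of_commute p (r + 1) (Commute.one_right A)
  rw [one_pow] at h1
  have h2 : (A - 1) ^ p ^ (r + 1) = 0 := by
    obtain ⟨c, hc⟩ := Nat.exists_eq_add_of_le hr
    rw [hc, pow_add, hu, zero_mul]
  rw [h2] at h1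
  exact (sub_eq_zero.1 h1.symm)

end abstract

section main

variable {m : ℕ} {G : Type w} [Group G] {a b : Fin m → G} (h : IsSurf a b)
variable {F : Type u} [Field F] {V : Type v} [AddCommGroup V] [Module F V]
variable {E : Type x} [Group E] {π : E →* MCG a b} {ρ : E →* Module.End F V}

/-- If the Torelli group and a power of a twist act by scalars, then the corresponding level acts by
scalars. -/
theorem level_of_powerE (hg : 3 ≤ m) (hs : Function.Surjective π) (hz : Sz {z | π z = 1} ρ)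
    (hT : ∀ t : E, π t ∈ Tor h → t ∈ SQ ρ) {x : E} (hx : π x = uA h 0) {q : ℕ} (hq : q ≠ 0)
    (hu : x ^ q ∈ SQ ρ) {t : E} (ht : Cg (q : ℤ) (spm h (π t))) : t ∈ SQ ρ := by
  obtain ⟨R, hR⟩ : ∃ R : Subgroup (MCG a b), R = (SQ ρ).map π := ⟨_, rfl⟩
  have hn : R.Normal := by rw [hR]; exact (SQ_normal (ρ := ρ)).map π hs
  obtain ⟨k0, hk0⟩ : ∃ k0 : Fin m, (k0 : ℕ) = 0 := ⟨⟨0, by omega⟩, rfl⟩
  have hval : ((uA h 0)⁻¹).1 = TA h k0 := by
    change (TrA h 0)⁻¹ = TA h k0
    rw [TrA, dif_pos (by omega : 0 < m), inv_inv]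
    congr 1
    exact Fin.ext hk0.symm
  have hmem : (uA h 0)⁻¹ ^ (q : ℤ) ∈ R := by
    rw [inv_zpow, Subgroup.inv_mem_iff, hR, zpow_natCast, ← hx, ← map_pow]
    exact Subgroup.mem_map_of_mem _ hu
  obtain ⟨r, hr, hr1⟩ := power_spm h hg (R := R) (m := (q : ℤ)) (by exact_mod_cast hq) (k := k0)
    (t := (uA h 0)⁻¹) hval hmem ht
  have h1 : π t * r⁻¹ ∈ Tor h := by
    refine fun y => ?_
    have h2 := spm_cls h (π t * r⁻¹) y
    rw [hr1] at h2
    exact h2.symm
  obtain ⟨s, hs1⟩ := hs (π t * r⁻¹)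
  have h2 : s ∈ SQ ρ := hT s (by rw [hs1]; exact h1)
  rw [hR] at hr
  obtain ⟨r', hr', rfl⟩ := hr
  have h3 : (s * r')⁻¹ * t ∈ SQ ρ := hz _ (by
    change π ((s * r')⁻¹ * t) = 1
    rw [map_mul, map_inv, map_mul, hs1]; group)
  have h4 := mul_mem (mul_mem h2 hr') h3
  rwa [mul_inv_cancel_left] at h4

/-- **The `p`-th power of a twist acts trivially.** -/
theorem irr_modE (hg : 3 ≤ m) (hs : Function.Surjective π) {p : ℕ} [hp : Fact p.Prime] [CharP F p]
    (hirr : Irr ρ) (hz : Sz {z | π z = 1} ρ) (hT : ∀ t : E, π t ∈ Tor h → t ∈ SQ ρ) {A : E}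
    (hA : π A = uA h 0) {r : ℕ} (hu : (ρ A - 1) ^ r = 0) :
    ∀ x ∈ Subgroup.normalClosure {A ^ p}, ρ x = 1 := by
  rcases subsingleton_or_nontrivial V with hV | hV
  · intro x _
    ext v
    exact Subsingleton.elim _ _
  obtain ⟨v0, hv0⟩ := exists_ne (0 : V)
  have hEnd : Nontrivial (Module.End F V) := inferInstance
  have hchar : CharP (Module.End F V) p :=
    charP_of_injective_algebraMap (algebraMap F (Module.End F V)).injective p
  have hq : ρ A ^ p ^ (r + 1) = 1 := pow_of_unip hu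
  have hlev : ∀ t : E, Cg ((p ^ (r + 1) : ℕ) : ℤ) (spm h (π t)) → t ∈ SQ ρ := fun t ht =>
    level_of_powerE h hg hs hz hT hA (pow_ne_zero _ hp.out.ne_zero)
      ⟨1, fun v => by rw [map_pow, hq, one_smul]; rfl⟩ ht
  obtain ⟨K, hK⟩ : ∃ K : Subgroup E, K = Subgroup.normalClosure {A ^ p} := ⟨_, rfl⟩
  have hKn : K.Normal := by rw [hK]; infer_instance
  -- `K` lies in the level `p`
  have hKp : ∀ x ∈ K, Cg (p : ℤ) (spm h (π x)) := by
    have h1 : K ≤ (LevM h (p : ℤ)).comap π := by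
      rw [hK]
      refine Subgroup.normalClosure_le_normal ?_
      rw [Set.singleton_subset_iff, SetLike.mem_coe, Subgroup.mem_comap]
      change Cg (p : ℤ) (spm h (π (A ^ p)))
      obtain ⟨k0, hk0⟩ : ∃ k0 : Fin m, (k0 : ℕ) = 0 := ⟨⟨0, by omega⟩, rfl⟩
      have hval : ((uA h 0)⁻¹).1 = TA h k0 := by
        change (TrA h 0)⁻¹ = TA h k0
        rw [TrA, dif_pos (by omega : 0 < m), inv_inv]
        congr 1
        exact Fin.ext hk0.symm
      have h2 := spm_TA h k0 (uA h 0)⁻¹ hval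
      have h3 : π (A ^ p) = ((uA h 0)⁻¹ ^ p)⁻¹ := by rw [map_pow, hA, inv_pow, inv_inv]
      have h4 : spm h (π (A ^ p)) = (SP.T (SP.e k0) (-1 * (p : ℤ)))⁻¹ := by
        rw [h3, map_inv, map_pow, h2, ← zpow_natCast, SP.T_zpow]
      rw [h4]
      exact SP.Cg.inv (SP.Cg.T (Dvd.intro_left _ rfl) _)
    exact fun x hx => h1 hx
  have hKpow : ∀ x ∈ K, x ^ p ^ r ∈ SQ ρ := by
    intro x hx
    refine hlev _ ?_
    rw [map_pow, map_pow]
    have h1 := cg_pow_pow (hKp x hx) r
    rwa [← Nat.cast_pow] at h1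
  -- the image
  obtain ⟨f, hf⟩ : ∃ f : K →* (Module.End F V)ˣ, f = (ρ.comp K.subtype).toHomUnits := ⟨_, rfl⟩
  have hfv : ∀ x : K, ((f x : (Module.End F V)ˣ) : Module.End F V) = ρ x := by
    intro x
    rw [hf]
    rfl
  have hcen : ∀ x : K, (x : E) ∈ SQ ρ → f.rangeRestrict x ∈ Subgroup.center f.range := by
    intro x hx
    obtain ⟨c, hc⟩ := hx
    rw [Subgroup.mem_center_iff]
    rintro ⟨_, y, rfl⟩
    apply Subtype.ext
    apply Units.ext
    change ((f y : (Module.End F V)ˣ) : Module.End F V) * ((f x : (Module.End F V)ˣ) : _) =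
      ((f x : (Module.End F V)ˣ) : Module.End F V) * ((f y : (Module.End F V)ˣ) : _)
    rw [hfv, hfv]
    ext v
    rw [Module.End.mul_apply, Module.End.mul_apply, hc, hc, map_smul]
  have hNe : NeZero (p ^ (r + 1)) := ⟨pow_ne_zero _ hp.out.ne_zero⟩
  have hred : ∀ x y : K, red2 (p ^ (r + 1)) (spm h (π x)) = red2 (p ^ (r + 1)) (spm h (π y)) →
      ((x * y⁻¹ : K) : E) ∈ SQ ρ := by
    intro x y hxy
    refine hlev _ fun v => ?_
    have h2 := red2_eq hxy ((spm h (π y))⁻¹ v)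
    rw [Subgroup.coe_mul, Subgroup.coe_inv, map_mul, map_inv, map_mul, map_inv]
    have h3 : (spm h (π y)) ((spm h (π y))⁻¹ v) = v := SP.sp_apply_inv _ _
    rw [h3] at h2
    exact h2
  have hfinq : Finite (f.range ⧸ Subgroup.center f.range) := by
    let gq : K → f.range ⧸ Subgroup.center f.range := fun x =>
      QuotientGroup.mk' (Subgroup.center f.range) (f.rangeRestrict x)
    have hfac : Function.FactorsThrough gq fun x => red2 (p ^ (r + 1)) (spm h (π x)) := by
      intro x y hxy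
      have h1 := hcen _ (hred x y hxy)
      have h2 : QuotientGroup.mk' (Subgroup.center f.range) (f.rangeRestrict (x * y⁻¹)) = 1 :=
        (QuotientGroup.eq_one_iff _).2 h1
      rw [map_mul, map_mul, map_inv, map_inv, mul_inv_eq_one] at h2
      exact h2
    obtain ⟨e, he⟩ := (Function.factorsThrough_iff _).1 hfac
    have h5 : Set.range gq ⊆ Set.range e := by
      rintro _ ⟨x, rfl⟩
      exact ⟨_, (congrFun he x).symm⟩
    have h6 : (Set.range gq) = Set.univ := by
      rw [Set.range_eq_univ]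
      intro z
      obtain ⟨y, rfl⟩ := QuotientGroup.mk'_surjective _ z
      obtain ⟨x, rfl⟩ := f.rangeRestrict_surjective y
      exact ⟨x, rfl⟩
    rw [← Set.finite_univ_iff, ← h6]
    exact (Set.finite_range e).subset h5
  have hpq : IsPGroup p (f.range ⧸ Subgroup.center f.range) := by
    intro z
    obtain ⟨y, rfl⟩ := QuotientGroup.mk'_surjective _ z
    obtain ⟨x, rfl⟩ := f.rangeRestrict_surjective y
    refine ⟨r, ?_⟩
    rw [← map_pow, ← map_pow]
    exact (QuotientGroup.eq_one_iff _).2 (hcen _ (hKpow x x.2))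
  have hgen : Subgroup.closure {x : f.range | x ^ p ^ (r + 1) = 1} = ⊤ := by
    rw [eq_top_iff]
    rintro y -
    obtain ⟨x, rfl⟩ := f.rangeRestrict_surjective y
    obtain ⟨P, hP⟩ : ∃ P : Subgroup E, P = ((Subgroup.closure
      {x : f.range | x ^ p ^ (r + 1) = 1}).comap f.rangeRestrict).map K.subtype := ⟨_, rfl⟩
    have h1 : K ≤ P := by
      conv_lhs => rw [hK]
      rw [Subgroup.normalClosure, Subgroup.closure_le]
      intro y hy
      obtain ⟨z, hz1, g, rfl⟩ : ∃ z ∈ ({A ^ p} : Set E), ∃ g, g * z * g⁻¹ = y := by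
        obtain ⟨z, hz1, hz2⟩ := Group.mem_conjugatesOfSet_iff.1 hy
        obtain ⟨c, hc⟩ := isConj_iff.1 hz2
        exact ⟨z, hz1, c, hc⟩
      rw [Set.mem_singleton_iff] at hz1
      subst hz1
      have hyK : g * A ^ p * g⁻¹ ∈ K :=
        hKn.conj_mem _ (by rw [hK]; exact Subgroup.subset_normalClosure rfl) g
      rw [SetLike.mem_coe, hP]
      refine ⟨⟨g * A ^ p * g⁻¹, hyK⟩, ?_, rfl⟩
      refine Subgroup.subset_closure ?_
      change (f.rangeRestrict ⟨g * A ^ p * g⁻¹, hyK⟩) ^ p ^ (r + 1) = 1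
      rw [← map_pow]
      apply Subtype.ext
      apply Units.ext
      change ((f (⟨g * A ^ p * g⁻¹, hyK⟩ ^ p ^ (r + 1)) : (Module.End F V)ˣ) : Module.End F V) = 1
      rw [hfv]
      change ρ ((g * A ^ p * g⁻¹) ^ p ^ (r + 1)) = 1
      rw [conj_pow, map_mul, map_mul, ← pow_mul, mul_comm p, pow_mul, map_pow, map_pow, hq,
        one_pow, mul_one, ← map_mul, mul_inv_cancel, map_one]
    have h2 := h1 x.2
    rw [hP] at h2
    obtain ⟨x', hx', e⟩ := h2
    have h3 : x' = x := Subtype.ext e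
    rw [← h3]
    exact hx'
  obtain ⟨n, hn⟩ := isPGroup_of_center hfinq hpq hgen
  have hKn1 : ∀ x ∈ K, ρ x ^ p ^ n = 1 := by
    intro x hx
    have h1 := hn (f.rangeRestrict ⟨x, hx⟩)
    have h2 := congrArg (fun y : f.range => ((y : (Module.End F V)ˣ) : Module.End F V)) h1
    change ((f ⟨x, hx⟩ : (Module.End F V)ˣ) : Module.End F V) ^ p ^ n = 1 at h2
    rwa [hfv] at h2
  -- scalars in `K` are trivial
  have hK1 : ∀ x ∈ K, x ∈ SQ ρ → ρ x = 1 := by
    rintro x hx ⟨c, hc⟩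
    have e : ∀ k, ∀ v, (ρ x ^ k) v = c ^ k • v := by
      intro k
      induction k with
      | zero => intro v; rw [pow_zero, pow_zero, one_smul]; rfl
      | succ k ih => intro v; rw [pow_succ, Module.End.mul_apply, hc, map_smul, ih, smul_smul,
          pow_succ, mul_comm]
    have h1 := e (p ^ n) v0
    rw [hKn1 x hx, Module.End.one_apply] at h1
    have h2 : (c ^ p ^ n - 1) • v0 = 0 := by rw [sub_smul, ← h1, one_smul, sub_self]
    have h3 : c ^ p ^ n - 1 = 0 := (smul_eq_zero.1 h2).resolve_right hv0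
    have h4 : (c - 1) ^ p ^ n = 0 := by
      rw [sub_pow_char_pow, one_pow, h3]
    have h5 : c = 1 := sub_eq_zero.1 (eq_zero_of_pow_eq_zero h4)
    ext v
    rw [hc, h5, one_smul]
    rfl
  have hfin : (Set.range (ρ.comp K.subtype)).Finite := by
    have hfac : Function.FactorsThrough (ρ.comp K.subtype)
        fun x => red2 (p ^ (r + 1)) (spm h (π x)) := by
      intro x y hxy
      have h1 := hK1 _ (x * y⁻¹).2 (hred x y hxy)
      have h2 : (x : E) = ((x * y⁻¹ : K) : E) * y := by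
        rw [Subgroup.coe_mul, Subgroup.coe_inv, inv_mul_cancel_right]
      change ρ x = ρ y
      rw [h2, map_mul, h1, one_mul]
    obtain ⟨e, he⟩ := (Function.factorsThrough_iff _).1 hfac
    have h5 : Set.range (ρ.comp K.subtype) ⊆ Set.range e := by
      rintro _ ⟨x, rfl⟩
      exact ⟨_, (congrFun he x).symm⟩
    exact (Set.finite_range e).subset h5
  obtain ⟨v, hv, hvfix⟩ := exists_fixed (p := p) (ρ.comp K.subtype) hfin
    (fun x => ⟨n, hKn1 x.1 x.2⟩) hv0
  -- the fixed space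
  obtain ⟨U, hU⟩ : ∃ U : Submodule F V, ∀ v, v ∈ U ↔ ∀ ψ ∈ K, ρ ψ v = v :=
    ⟨{ carrier := {v | ∀ ψ ∈ K, ρ ψ v = v}
       add_mem' := fun {x y} hx hy ψ hψ => by rw [map_add, hx ψ hψ, hy ψ hψ]
       zero_mem' := fun ψ _ => map_zero _
       smul_mem' := fun c x hx ψ hψ => by rw [map_smul, hx ψ hψ] }, fun v => Iff.rfl⟩
  have hUinv : ∀ γ, ∀ u ∈ U, ρ γ u ∈ U := by
    intro γ u hu
    rw [hU] at hu ⊢
    intro ψ hψ
    have h1 : ψ * γ = γ * (γ⁻¹ * ψ * γ⁻¹⁻¹) := by group
    rw [← Module.End.mul_apply, ← map_mul, h1, map_mul, Module.End.mul_apply,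
      hu _ (hKn.conj_mem ψ hψ γ⁻¹)]
  intro x hx
  rw [← hK] at hx
  rcases hirr U hUinv with h0 | h1
  · exfalso
    have h2 : v ∈ U := (hU v).2 fun ψ hψ => hvfix ⟨ψ, hψ⟩
    rw [h0, Submodule.mem_bot] at h2
    exact hv h2
  · ext v
    have h2 : v ∈ U := by rw [h1]; exact Submodule.mem_top
    exact (hU v).1 h2 x hx

end main

end Pool.Agent.H.MP_59b15d_al.H78E
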