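/-
A unipotent normal subgroup acts trivially if its normal subgroups with commutative image do.
-/
import Pool.Agent.H.MP_59b15d_al.h95e.Rad

set_option autoImplicit false

namespace Pool.Agent.H.MP_59b15d_al.H78E

open Pool.MP_59b15d_al.H95E

/-- Let `N` be a normal subgroup such that all products of `d` of the elements `τ x - 1`, `x ∈ N`,
vanish. If all normal subgroups contained in `N` whose image is commutative act trivially, then `N`
acts trivially. -/
theorem unip_triv2 {Q R : Type*} [Group Q] [Ring R] (τ : Q →* R) (N : Subgroup Q) [hN : N.Normal]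
    (hA : ∀ A : Subgroup Q, A ≤ N → A.Normal → (∀ x ∈ A, ∀ y ∈ A, τ (x * y) = τ (y * x)) →
      ∀ x ∈ A, τ x = 1) {d : ℕ}
    (hd : ∀ l : List Q, (∀ y ∈ l, y ∈ N) → l.length = d → pq τ l = 0) : ∀ x ∈ N, τ x = 1 := by
  have key : ∀ i, ∀ x ∈ MS τ N i, τ x = 1 := by
    intro i
    induction i with
    | zero =>
      intro x hx
      have h1 := (mem_MS.1 hx).2 [] [] (by simp) (by simp) rfl
      rwa [pq_nil, one_mul, mul_one, sub_eq_zero] at h1
    | succ i ih =>
      refine hA (MS τ N (i + 1)) (fun x hx => (mem_MS.1 hx).1) inferInstance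
        fun x hx y hy => ?_
      have h1 := ih _ (MS_comm hx (mem_MS.1 hy).1)
      have h2 : x * y = (x * y * x⁻¹ * y⁻¹) * (y * x) := by group
      rw [h2, map_mul, h1, one_mul]
  intro x hx
  rcases d with _ | d
  · have h1 := hd [] (by simp) rfl
    rw [pq_nil] at h1
    rw [← mul_one (τ x), ← mul_one (1 : R)]
    nth_rewrite 2 [h1]
    nth_rewrite 3 [h1]
    rw [mul_zero, mul_zero]
  · refine key d x (mem_MS.2 ⟨hx, fun l₁ l₂ h1 h2 h => ?_⟩)
    have h3 := hd (l₁ ++ (x :: l₂)) (by
      intro z hz
      rcases List.mem_append.1 hz with hz | hz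
      · exact h1 z hz
      · rcases List.mem_cons.1 hz with rfl | hz
        · exact hx
        · exact h2 z hz) (by rw [List.length_append, List.length_cons]; omega)
    rwa [pq_append, pq_cons, ← mul_assoc] at h3

end Pool.Agent.H.MP_59b15d_al.H78E
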