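/-
Homomorphisms of the mapping class group to quotients of the general linear group by groups of
scalars.
-/
import Pool.Agent.H.MP_59b15d_al.h52e.Faith
import Pool.Agent.H.MP_59b15d_al.h73p.Gt
import Pool.Agent.H.MP_59b15d_al.h78e.ModE
import Pool.Agent.H.MP_59b15d_al.h78e.Rad2

set_option autoImplicit false

namespace Pool.Agent.H.MP_59b15d_al.H78E

universe u v w x

open Module Pool.MP_59b15d_al.H24T Pool.MP_59b15d_al.H76R Pool.MP_59b15d_al.H73E
open Pool.MP_59b15d_al.H60G Pool.MP_59b15d_al.H40L Pool.MP_59b15d_al.H46U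
open Pool.Agent.H.MP_59b15d_al.Lin (uA CompRed exists_char_lev dv_of_innMod)
open Pool.Agent.H.MP_59b15d_al.Lft Pool.Agent.H.MP_59b15d_al.H73P
open Pool.Agent.H.MP_59b15d_al.H52E (Tor mem_Tor Irr JT JT_pow_bot mem_JT filt Xp ww_map Pd_ww cz
  hs_cz ww)
open Pool.Agent.H.MP_59b15d_al.SP (cls Dv Cg spm Sp power_spm cg_spm_iff spm_cls cls_surj spm_TA
  H1 csp_H1)

/-! ### Perfect central extensions -/

section ext

variable {m : ℕ} {G : Type w} [Group G] {a b : Fin m → G} (h : IsSurf a b)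
variable {F : Type u} [Field F] {E : Type x} [Group E] {π : E →* MCG a b}

/-- In the irreducible representations of dimension at most `D` in which the kernel acts by scalars,
the Torelli group acts by scalars and the lift `A` of a twist is unipotent. -/
def Bd (π : E →* MCG a b) (F : Type u) [Field F] (D : ℕ) (A : E) : Prop :=
  ∀ (V : Type v) [AddCommGroup V] [Module F V] [FiniteDimensional F V]
    (ρ : E →* Module.End F V), finrank F V ≤ D → Irr ρ → Sz {z | π z = 1} ρ →
      (∀ t : E, π t ∈ Tor h → t ∈ SQ ρ) ∧ ∃ r : ℕ, (ρ A - 1) ^ r = 0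

variable {h} {D : ℕ} {A : E}

theorem Bd.goodE (hB : Bd.{u, v, w, x} h π F D A) : GoodE.{u, v, w, x} h π F D :=
  fun V _ _ _ ρ hD hirr hz => (hB V ρ hD hirr hz).1

/-- The lift of a level subgroup which acts trivially. -/
def NL (h : IsSurf a b) (π : E →* MCG a b) (A : E) (p : ℕ) : Subgroup E :=
  Subgroup.normalClosure {A ^ p} ⊔ TorL h π

instance NL_normal (p : ℕ) : (NL h π A p).Normal := by
  unfold NL
  exact Subgroup.sup_normal _ _

theorem lev_le (hg : 3 ≤ m) (hs : Function.Surjective π) (hA : π A = uA h 0) {p : ℕ} (hp : p ≠ 0) :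
    LevM h (p : ℤ) ≤ (NL h π A p).map π := by
  intro φ hφ
  obtain ⟨R, hR⟩ : ∃ R : Subgroup (MCG a b), R = (NL h π A p).map π := ⟨_, rfl⟩
  have hn : R.Normal := by rw [hR]; exact (NL_normal (h := h) (π := π) (A := A) p).map π hs
  obtain ⟨k0, hk0⟩ : ∃ k0 : Fin m, (k0 : ℕ) = 0 := ⟨⟨0, by omega⟩, rfl⟩
  have hval : ((uA h 0)⁻¹).1 = TA h k0 := by
    change (TrA h 0)⁻¹ = TA h k0
    rw [TrA, dif_pos (by omega : 0 < m), inv_inv]
    congr 1
    exact Fin.ext hk0.symm
  have hmem : (uA h 0)⁻¹ ^ (p : ℤ) ∈ R := by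
    rw [inv_zpow, Subgroup.inv_mem_iff, hR, zpow_natCast, ← hA, ← map_pow]
    exact Subgroup.mem_map_of_mem _
      ((le_sup_left : _ ≤ NL h π A p) (Subgroup.subset_normalClosure rfl))
  obtain ⟨r, hr, hr1⟩ := power_spm h hg (R := R) (m := (p : ℤ)) (by exact_mod_cast hp) (k := k0)
    (t := (uA h 0)⁻¹) hval hmem hφ
  have h1 : φ * r⁻¹ ∈ Tor h := by
    intro y
    have h2 := spm_cls h (φ * r⁻¹) y
    rw [hr1] at h2
    exact h2.symm
  rw [← map_TorL h hg hs] at h1
  have h3 : φ * r⁻¹ ∈ R := by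
    rw [hR]
    exact Subgroup.map_mono le_sup_right h1
  have h4 := R.mul_mem h3 hr
  rw [inv_mul_cancel_right, hR] at h4
  exact h4

/-- **Levels.** In a completely reducible representation, every mapping class which acts trivially
on the homology modulo the characteristic has a lift which acts trivially. -/
theorem exists_level (hg : 3 ≤ m) (hs : Function.Surjective π) (hA : π A = uA h 0)
    (hB : Bd.{u, v, w, x} h π F D A) {n : ℤ} (hn : (n : F) = 0) (V : Type v) [AddCommGroup V]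
    [Module F V] [FiniteDimensional F V] (ρ : E →* Module.End F V) (hD : finrank F V ≤ D)
    (hρ : CompRed ρ) (hz : Sz {z | π z = 1} ρ) {φ : MCG a b}
    (hφ : ∀ x, Dv n (cls h (φ.1 x) - cls h x)) : ∃ y : E, π y = φ ∧ ρ y = 1 := by
  have hT1 := hB.goodE.cr h V ρ hD hρ hz
  have key : ∀ p : ℕ, CharP F p → ∃ y : E, π y = φ ∧ ρ y = 1 := by
    intro p hpF
    have hdvd : (p : ℤ) ∣ n := (CharP.intCast_eq_zero_iff F p n).1 hn
    rcases Nat.eq_zero_or_pos p with h0 | h0
    · have h1 : φ ∈ Tor h := by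
        intro y
        have h1 := hφ y
        rw [h0, Nat.cast_zero, zero_dvd_iff] at hdvd
        obtain ⟨w, hw⟩ := h1
        rw [hdvd, zero_smul, sub_eq_zero] at hw
        exact hw
      rw [← map_TorL h hg hs] at h1
      obtain ⟨y, hy, e⟩ := h1
      exact ⟨y, e, hT1 y hy⟩
    · have : NeZero p := ⟨h0.ne'⟩
      have hp : Fact p.Prime := ⟨CharP.char_is_prime_of_pos F p |>.out⟩
      have hφ' : φ ∈ LevM h (p : ℤ) := by
        rw [mem_LevM]
        intro y
        obtain ⟨w, hw⟩ := hφ y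
        obtain ⟨c, hc⟩ := hdvd
        exact ⟨c • w, by rw [hw, hc, mul_smul]⟩
      obtain ⟨y, hy, e⟩ := lev_le hg hs hA h0.ne' hφ'
      refine ⟨y, e, ?_⟩
      have h2 : ∀ y ∈ Subgroup.normalClosure {A ^ p}, ρ y = 1 := by
        refine kill_sc (Z := {z | π z = 1}) (T := Subgroup.normalClosure {A ^ p}) ?_ V ρ hD hρ hz
        intro W _ _ _ τ hW hirr hz' y hy
        obtain ⟨h3, r, hr⟩ := hB W τ hW hirr hz'
        exact irr_modE h hg hs hirr hz' h3 hA hr y hy
      obtain ⟨P, hP⟩ : ∃ P : Subgroup E, P = ρ.ker := ⟨_, rfl⟩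
      have h3 : NL h π A p ≤ P := by
        refine sup_le (fun y hy => ?_) fun y hy => ?_
        · rw [hP, MonoidHom.mem_ker]
          exact h2 y hy
        · rw [hP, MonoidHom.mem_ker]
          exact hT1 y hy
      have h4 := h3 hy
      rwa [hP, MonoidHom.mem_ker] at h4
  obtain ⟨p, hp⟩ := CharP.exists F
  exact key p hp

/-- **No abelian normal subgroup.** -/
theorem torL_triv {V : Type v} [AddCommGroup V]
    [Module F V] {ρ : E →* Module.End F V} {d : ℕ}
    (hu : ∀ l : List E, (∀ t ∈ l, t ∈ TorL h π) → d ≤ l.length →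
      (l.map (fun t => ρ t - 1)).prod = 0)
    (hA : ∀ A : Subgroup E, A ≤ TorL h π → A.Normal →
      (∀ x ∈ A, ∀ y ∈ A, ρ (x * y) = ρ (y * x)) → ∀ x ∈ A, x ∈ SQ ρ) :
    ∀ t ∈ TorL h π, ρ t = 1 := by
  refine unip_triv2 ρ (TorL h π) (fun A hA1 hA2 hA3 x hx => ?_) (d := d)
    fun l hl hlen => hu l hl hlen.ge
  obtain ⟨c, hc⟩ := hA A hA1 hA2 hA3 x hx
  have h1 := hu (List.replicate d x) (fun t ht => by
    rw [List.eq_of_mem_replicate ht]
    exact hA1 hx) (by rw [List.length_replicate])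
  rw [List.map_replicate, List.prod_replicate] at h1
  have e : ∀ k, ∀ v, ((ρ x - 1) ^ k) v = (c - 1) ^ k • v := by
    intro k
    induction k with
    | zero => intro v; rw [pow_zero, pow_zero, one_smul]; rfl
    | succ k ih =>
      intro v
      rw [pow_succ', Module.End.mul_apply, ih, map_smul, LinearMap.sub_apply, hc, pow_succ,
        mul_smul, sub_smul]
      simp
  refine LinearMap.ext fun v => ?_
  have h2 := e d v
  rw [h1, LinearMap.zero_apply] at h2
  rcases smul_eq_zero.1 h2.symm with h3 | h3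
  · have h4 : c = 1 := sub_eq_zero.1 (eq_zero_of_pow_eq_zero h3)
    rw [hc, h4, one_smul]
    rfl
  · rw [h3, map_zero, map_zero]

end ext

end Pool.Agent.H.MP_59b15d_al.H78E
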