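/-
Homomorphisms of the mapping class group to quotients of the general linear group by groups of
scalars: the conclusions.
-/
import Pool.Agent.H.MP_59b15d_al.h73p.Fin
import Pool.Agent.H.MP_59b15d_al.h78e.FinZ

set_option autoImplicit false

namespace Pool.Agent.H.MP_59b15d_al.H78E

universe u v w x

open Module Pool.MP_59b15d_al.H24T Pool.MP_59b15d_al.H76R Pool.MP_59b15d_al.H73E
open Pool.MP_59b15d_al.H60G Pool.MP_59b15d_al.H40L Pool.MP_59b15d_al.H46U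
open Pool.Agent.H.MP_59b15d_al.Lin (uA CompRed exists_char_lev dv_of_innMod)
open Pool.Agent.H.MP_59b15d_al.Lft Pool.Agent.H.MP_59b15d_al.H73P
open Pool.Agent.H.MP_59b15d_al.H52E
open Pool.Agent.H.MP_59b15d_al.SP (cls Dv H1 csp_H1)
open Pool.Agent.H.MP_59b15d_al.H40T (XX_triv)
open Pool.MP_59b15d_al.H76 (StdGen InnMod)

/-! ### A non-inner element of the kernel -/

section ker

variable {m : ℕ} {G : Type w} [Group G] {a b : Fin m → G} {h : IsSurf a b}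
variable {F : Type u} [Field F] {E : Type x} [Group E] {π : E →* MCG a b}

/-- If the lift of the Torelli group acts unipotently, then it contains an element which acts
trivially and is not an inner automorphism (after helper73's `proj_ker`). -/
theorem exists_kerE (hm : 4 ≤ m) (hs : Function.Surjective π) {V : Type v} [AddCommGroup V]
    [Module F V] {τ : E →* Module.End F V} {d : ℕ}
    (hu : ∀ l : List E, (∀ t ∈ l, t ∈ TorL h π) → d ≤ l.length →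
      (l.map (fun t => τ t - 1)).prod = 0) :
    ∃ y ∈ TorL h π, τ y = 1 ∧ π y ∈ Tor h ∧ ∀ c : G, ((π y : MCG a b) : MulAut G) ≠
      MulAut.conj c := by
  obtain ⟨n, rfl⟩ : ∃ n, m = n + 1 := ⟨m - 1, by omega⟩
  have hJ : JT τ (TorL h π) ^ d = ⊥ := JT_pow_bot hu
  have hTL : ∀ φ ∈ Tor h, ∃ x ∈ TorL h π, π x = φ := by
    intro φ hφ
    rw [← map_TorL h (by omega) hs] at hφ
    exact hφ
  let z : Fr n := cz ⟨0, by omega⟩ ⟨1, by omega⟩
  let z' : Fr n := cz ⟨1, by omega⟩ ⟨2, by omega⟩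
  have hz : Pool.Agent.H.MP_59b15d_al.H93C.hs z = 1 := hs_cz (by simp)
  have hz' : Pool.Agent.H.MP_59b15d_al.H93C.hs z' = 1 := hs_cz (by simp)
  have hM : ∀ y : Fr n, XX h y ∈ MCG a b := by
    intro y
    rw [MCG_eq h]
    exact XX_mem h y
  have hT : ∀ y : Fr n, Pool.Agent.H.MP_59b15d_al.H93C.hs y = 1 →
      (⟨XX h y, hM y⟩ : MCG a b) ∈ Tor h := by
    intro y hy x
    have h1 := XX_triv h hy
    have h2 := congrArg (fun A => A (cls h x)) h1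
    simpa [SP.H1_cls] using h2
  obtain ⟨ζ, hζ, eζ⟩ := hTL _ (hT _ hz)
  have key : ∀ j, ∃ x ∈ TorL h π,
      π x = ⟨XX h (ww z z' j), hM _⟩ ∧ τ x - 1 ∈ JT τ (TorL h π) ^ (j + 1) := by
    intro j
    induction j with
    | zero =>
      obtain ⟨x, hx, ex⟩ := hTL _ (hT _ hz')
      refine ⟨x, hx, ex, ?_⟩
      rw [zero_add, pow_one]
      exact mem_JT hx
    | succ j ih =>
      obtain ⟨x, hx, ex, hj⟩ := ih
      refine ⟨x * ζ * x⁻¹ * ζ⁻¹, ?_, ?_, filt hx hζ hj⟩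
      · exact Subgroup.mul_mem _ (Subgroup.mul_mem _ (Subgroup.mul_mem _ hx hζ)
          (Subgroup.inv_mem _ hx)) (Subgroup.inv_mem _ hζ)
      · rw [map_mul, map_mul, map_mul, map_inv, map_inv, ex, eζ]
        apply Subtype.ext
        change XX h (ww z z' j) * XX h z * (XX h (ww z z' j))⁻¹ * (XX h z)⁻¹ =
          XX h (ww z z' (j + 1))
        rw [ww, map_mul, map_mul, map_mul, map_inv, map_inv]
  obtain ⟨x, hx, ex, hj⟩ := key (d + 1)
  refine ⟨x, hx, ?_, ?_, fun c => ?_⟩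
  · rw [show d + 1 + 1 = d + 2 by omega, pow_add, hJ, Submodule.bot_mul,
      Submodule.mem_bot, sub_eq_zero] at hj
    exact hj
  · rw [ex]
    exact hT _ (ww_map _ hz hz' _)
  · rw [ex]
    exact XX_not_inner h Xp (Pd_ne (Pd_ww (by omega) d)) c

end ker

/-! ### Homomorphisms to `GL(V) / Z` -/

section gen

variable {Γ : Type w} [Group Γ] {F : Type u} [Field F] {V : Type v} [AddCommGroup V] [Module F V]
  {ρ : Γ → (V ≃ₗ[F] V)} {Z : Subgroup Fˣ}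

/-- `ρ` is multiplicative up to scalars in `Z`. -/
def IsProjZ (Z : Subgroup Fˣ) (ρ : Γ → (V ≃ₗ[F] V)) : Prop :=
  ∀ x y, ∃ c ∈ Z, ∀ v, ρ (x * y) v = c • ρ x (ρ y v)

theorem IsProjZ.proj (hZ : IsProjZ Z ρ) : IsProj ρ := fun x y =>
  let ⟨c, _, hc⟩ := hZ x y
  ⟨c, hc⟩

theorem IsProjZ.one (hZ : IsProjZ Z ρ) : ∃ c ∈ Z, ∀ v, v = c • ρ 1 v := by
  obtain ⟨c, hcZ, hc⟩ := hZ 1 1
  refine ⟨c, hcZ, fun v => (ρ 1).injective ?_⟩
  have h1 := hc v
  rw [mul_one] at h1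
  rw [Units.smul_def, map_smul, ← Units.smul_def]
  exact h1

theorem IsProjZ.inv (hZ : IsProjZ Z ρ) (x : Γ) : ∃ c ∈ Z, ∀ v, v = c • ρ x (ρ x⁻¹ v) := by
  obtain ⟨c, hcZ, hc⟩ := hZ.one
  obtain ⟨d, hdZ, hd⟩ := hZ x x⁻¹
  refine ⟨c * d, Z.mul_mem hcZ hdZ, fun v => ?_⟩
  rw [mul_smul, ← hd v, mul_inv_cancel]
  exact hc v

/-- The lifts which are multiples of `ρ x` by elements of `Z`. -/
def KZ (hZ : IsProjZ Z ρ) (hρ : IsProj ρ) : Subgroup (Gt hρ) where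
  carrier := {p | ∃ c ∈ Z, ∀ v, sg hρ p v = c • ρ (pr hρ p) v}
  one_mem' := by
    obtain ⟨c, hcZ, hc⟩ := hZ.one
    exact ⟨c, hcZ, fun v => by rw [map_one, map_one, Module.End.one_apply]; exact hc v⟩
  mul_mem' := by
    rintro p q ⟨c, hcZ, hc⟩ ⟨d, hdZ, hd⟩
    obtain ⟨e, heZ, he⟩ := hZ (pr hρ p) (pr hρ q)
    refine ⟨c * d * e⁻¹, Z.mul_mem (Z.mul_mem hcZ hdZ) (Z.inv_mem heZ), fun v => ?_⟩
    have h1 : ρ (pr hρ p) (ρ (pr hρ q) v) = e⁻¹ • ρ (pr hρ p * pr hρ q) v := by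
      rw [he v, smul_smul, inv_mul_cancel, one_smul]
    rw [map_mul, Module.End.mul_apply, hd, hc, Units.smul_def d, map_smul, ← Units.smul_def, h1,
      map_mul, smul_smul, smul_smul]
  inv_mem' := by
    rintro p ⟨c, hcZ, hc⟩
    obtain ⟨d, hdZ, hd⟩ := hZ.inv (pr hρ p)
    refine ⟨c⁻¹ * d, Z.mul_mem (Z.inv_mem hcZ) hdZ, fun v => ?_⟩
    have h2 : ∀ u, sg hρ p⁻¹ (sg hρ p u) = u := fun u => by
      rw [← Module.End.mul_apply, ← map_mul, inv_mul_cancel, map_one, Module.End.one_apply]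
    have h3 : v = sg hρ p ((c⁻¹ * d) • ρ (pr hρ p)⁻¹ v) := by
      rw [hc, Units.smul_def (c⁻¹ * d), map_smul, ← Units.smul_def, smul_smul, mul_inv_cancel_left]
      exact hd v
    conv_lhs => rw [h3]
    rw [h2, map_inv]

/-- **The perfect extension consists of multiples by elements of `Z`.** -/
theorem se_eqZ (hZ : IsProjZ Z ρ) (hρ : IsProj ρ) (x : commutator (Gt hρ)) :
    ∃ c ∈ Z, ∀ v, se hρ x v = c • ρ (pe hρ x) v := by
  have h1 : (KZ hZ hρ).map (pr hρ) = ⊤ := by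
    rw [eq_top_iff]
    rintro y -
    obtain ⟨p, hp, hv⟩ := exists_lift hρ y
    exact ⟨p, ⟨1, Z.one_mem, fun v => by rw [one_smul, hp]; exact hv v⟩, hp⟩
  have h2 := comm_le (ce_pr hρ) h1 x.2
  have h3 : ⁅KZ hZ hρ, KZ hZ hρ⁆ ≤ KZ hZ hρ := Subgroup.commutator_le.2 fun a ha b hb =>
    (KZ hZ hρ).mul_mem ((KZ hZ hρ).mul_mem ((KZ hZ hρ).mul_mem ha hb) ((KZ hZ hρ).inv_mem ha))
      ((KZ hZ hρ).inv_mem hb)
  exact h3 h2

/-- The operator `ρ x` is a scalar in `Z`. -/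
def ScalZ (Z : Subgroup Fˣ) (ρ : Γ → (V ≃ₗ[F] V)) (x : Γ) : Prop := ∃ c ∈ Z, ∀ v, ρ x v = c • v

theorem scalZ_of_se (hZ : IsProjZ Z ρ) (hρ : IsProj ρ) {x : commutator (Gt hρ)}
    (h1 : se hρ x = 1) : ScalZ Z ρ (pe hρ x) := by
  obtain ⟨c, hcZ, hc⟩ := se_eqZ hZ hρ x
  refine ⟨c⁻¹, Z.inv_mem hcZ, fun v => ?_⟩
  have h3 := hc v
  rw [h1, Module.End.one_apply] at h3
  conv_rhs => rw [h3]
  rw [inv_smul_smul]

/-- The image in the quotient by `Z` has no commutative normal subgroup except `1`. -/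
def NoAbZ (Z : Subgroup Fˣ) (ρ : Γ → (V ≃ₗ[F] V)) : Prop :=
  ∀ N : Subgroup Γ, N.Normal → (∀ x ∈ N, ∀ y ∈ N, ∃ c ∈ Z, ∀ v, ρ x (ρ y v) = c • ρ y (ρ x v)) →
    ∀ x ∈ N, ScalZ Z ρ x

end gen

/-! ### The mapping class group -/

section mcg

variable {m : ℕ} {G : Type w} [Group G] {a b : Fin m → G} {h : IsSurf a b}
variable {F : Type u} [Field F] {V : Type v} [AddCommGroup V] [Module F V]
  [FiniteDimensional F V] {ρ : MCG a b → (V ≃ₗ[F] V)} {Z : Subgroup Fˣ} (hZ : IsProjZ Z ρ)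

/-- The unipotence of the Torelli group. -/
theorem unipZ (hG : GoodE.{u, v, w, max v w} h (pe hZ.proj) F (finrank F V))
    (l : List (commutator (Gt hZ.proj))) (hl : ∀ x ∈ l, x ∈ TorL h (pe hZ.proj))
    (hlen : finrank F V ≤ l.length) : (l.map fun x => se hZ.proj x - 1).prod = 0 :=
  hG.unip h V (se hZ.proj) le_rfl (se_sz hZ.proj) l hl hlen

/-- **The normalised operators.** -/
theorem projZ_norm (hm : 4 ≤ m)
    (hG : GoodE.{u, v, w, max v w} h (pe hZ.proj) F (finrank F V)) :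
    ∃ c : MCG a b → Fˣ, (∀ φ, c φ ∈ Z) ∧
      (∀ φ ∈ Tor h, ∀ ψ ∈ Tor h, ∀ v, c (φ * ψ) • ρ (φ * ψ) v = c φ • ρ φ (c ψ • ρ ψ v)) ∧
      (∀ l : List (MCG a b), (∀ φ ∈ l, φ ∈ Tor h) → finrank F V ≤ l.length →
        (l.map fun φ => (c φ : F) • ((ρ φ : V →ₗ[F] V) : Module.End F V) - 1).prod = 0) ∧
      ∃ φ ∈ Tor h, (∀ v, c φ • ρ φ v = v) ∧ ∀ y : G, (φ : MulAut G) ≠ MulAut.conj y := by
  classical
  have hp := mcg_perfect h (by omega : 3 ≤ m)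
  have hC := ce_pe hZ.proj hp
  have h1 : ∀ φ : MCG a b, ∃ x : commutator (Gt hZ.proj),
      φ ∈ Tor h → x ∈ TorL h (pe hZ.proj) ∧ pe hZ.proj x = φ := by
    intro φ
    by_cases hφ : φ ∈ Tor h
    · rw [← map_TorL h (by omega) hC.sur] at hφ
      obtain ⟨x, hx, e⟩ := hφ
      exact ⟨x, fun _ => ⟨hx, e⟩⟩
    · exact ⟨1, fun h => absurd h hφ⟩
  choose x hx using h1
  choose c hcZ hc using fun φ : MCG a b => se_eqZ hZ hZ.proj (x φ)
  have hop : ∀ φ ∈ Tor h, ∀ v, se hZ.proj (x φ) v = c φ • ρ φ v := by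
    intro φ hφ v
    rw [hc, (hx φ hφ).2]
  refine ⟨c, hcZ, ?_, ?_, ?_⟩
  · intro φ hφ ψ hψ v
    rw [← hop _ (mul_mem hφ hψ), ← hop ψ hψ, ← hop φ hφ]
    have h2 : se hZ.proj (x (φ * ψ)) = se hZ.proj (x φ * x ψ) :=
      N_uniq hZ.proj hp (unipZ hZ hG) (hx _ (mul_mem hφ hψ)).1
        (Subgroup.mul_mem _ (hx φ hφ).1 (hx ψ hψ).1) (by
          rw [(hx _ (mul_mem hφ hψ)).2, map_mul, (hx φ hφ).2, (hx ψ hψ).2])
    rw [h2, map_mul, Module.End.mul_apply]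
  · intro l hl hlen
    have h2 := unipZ hZ hG (l.map x) (by
      intro y hy
      obtain ⟨φ, hφ, rfl⟩ := List.mem_map.1 hy
      exact (hx φ (hl φ hφ)).1) (by rwa [List.length_map])
    rw [List.map_map] at h2
    rw [← h2]
    congr 1
    refine List.map_congr_left fun φ hφ => ?_
    have h3 : se hZ.proj (x φ) = (c φ : F) • ((ρ φ : V →ₗ[F] V) : Module.End F V) := by
      ext v
      exact hop φ (hl φ hφ) v
    rw [Function.comp_apply, h3]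
  · obtain ⟨y, hy, hy1, hyT, hyn⟩ := exists_kerE (h := h) hm hC.sur (τ := se hZ.proj)
      (unipZ hZ hG)
    refine ⟨pe hZ.proj y, hyT, fun v => ?_, hyn⟩
    have h2 : se hZ.proj (x (pe hZ.proj y)) = se hZ.proj y :=
      N_uniq hZ.proj hp (unipZ hZ hG) (hx _ hyT).1 hy (hx _ hyT).2
    rw [← hop _ hyT, h2, hy1, Module.End.one_apply]

/-- **Completely reducible projective representations.** -/
theorem projZ_level (hm : 3 ≤ m) {A : commutator (Gt hZ.proj)} (hA : pe hZ.proj A = uA h 0)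
    (hB : Bd.{u, v, w, max v w} h (pe hZ.proj) F (finrank F V) A)
    (hcr : ∀ U : Submodule F V, (∀ x, ∀ u ∈ U, ρ x u ∈ U) →
      ∃ W : Submodule F V, (∀ x, ∀ u ∈ W, ρ x u ∈ W) ∧ IsCompl U W)
    {n : ℤ} (hn : (n : F) = 0) {φ : MCG a b} (hφ : ∀ x, Dv n (cls h (φ.1 x) - cls h x)) :
    ScalZ Z ρ φ := by
  have hp := mcg_perfect h hm
  obtain ⟨y, rfl, h1⟩ := exists_level (h := h) hm (ce_pe hZ.proj hp).sur hA hB hn V (se hZ.proj)
    le_rfl (se_cr hZ.proj hp hcr) (se_sz hZ.proj) hφ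
  exact scalZ_of_se hZ hZ.proj h1

/-- **No abelian normal subgroup.** -/
theorem projZ_noab (hm : 3 ≤ m)
    (hG : GoodE.{u, v, w, max v w} h (pe hZ.proj) F (finrank F V)) (hN : NoAbZ Z ρ)
    {φ : MCG a b} (hφ : φ ∈ Tor h) : ScalZ Z ρ φ := by
  have hp := mcg_perfect h hm
  have hC := ce_pe hZ.proj hp
  rw [← map_TorL h hm hC.sur] at hφ
  obtain ⟨y, hy, rfl⟩ := hφ
  refine scalZ_of_se hZ hZ.proj (torL_triv (unipZ hZ hG) (fun A _ hA hc x hx => ?_) y hy)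
  have h1 : ∀ z ∈ A.map (pe hZ.proj), ScalZ Z ρ z := by
    refine hN (A.map (pe hZ.proj)) (hA.map _ hC.sur) ?_
    rintro _ ⟨x, hx, rfl⟩ _ ⟨y, hy, rfl⟩
    obtain ⟨c, h1⟩ := se_eq hZ.proj x
    obtain ⟨d, h2⟩ := se_eq hZ.proj y
    refine ⟨1, Z.one_mem, fun v => ?_⟩
    have h3 := LinearMap.congr_fun (hc x hx y hy) v
    rw [map_mul, map_mul, Module.End.mul_apply, Module.End.mul_apply, h2, h2, h1, h1,
      Units.smul_def, Units.smul_def, Units.smul_def, Units.smul_def, map_smul, map_smul,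
      smul_smul, smul_smul, mul_comm (d : F) (c : F)] at h3
    rw [one_smul]
    have h4 : ((c : F) * (d : F)) ≠ 0 := mul_ne_zero c.ne_zero d.ne_zero
    exact smul_right_injective V h4 h3
  obtain ⟨c, h2⟩ := se_eq hZ.proj x
  obtain ⟨d, -, h3⟩ := h1 _ ⟨x, hx, rfl⟩
  exact ⟨c * d, fun v => by rw [h2, h3, Units.smul_def, Units.smul_def, smul_smul]⟩

omit [FiniteDimensional F V] in
/-- **Congruence.** -/
theorem congZ (hm : 3 ≤ m) (hs : ∀ φ ∈ Tor h, ScalZ Z ρ φ)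
    (H : Subgroup (MulAut G)) (hH : H.relIndex (MCG a b) ≠ 0)
    (hker : ∀ f : MCG a b, ScalZ Z ρ f → (f : MulAut G) ∈ H) :
    ∃ Γ : Subgroup G, Γ.Characteristic ∧ Γ.FiniteIndex ∧ ∀ φ ∈ MCG a b, InnMod Γ φ → φ ∈ H := by
  have h1 : ∀ f ∈ MCG a b, H1 h f = 1 → f ∈ H := by
    intro f hf hf1
    refine hker ⟨f, hf⟩ (hs _ ?_)
    intro x
    have h2 := congrArg (fun A => A (cls h x)) hf1
    simpa [SP.H1_cls] using h2
  obtain ⟨n, hn, h2⟩ := csp_H1 h hm H hH h1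
  obtain ⟨k, rfl⟩ : ∃ k : ℕ, n = k := ⟨n.toNat, (Int.toNat_of_nonneg hn.le).symm⟩
  obtain ⟨Γ, hc, hf, hle⟩ := exists_char_lev h (n := k) (by omega)
  exact ⟨Γ, hc, hf, fun φ hφ hi => h2 φ hφ (dv_of_innMod h hle hi)⟩

end mcg

end Pool.Agent.H.MP_59b15d_al.H78E
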