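/-
Homomorphisms of the mapping class group to quotients of the general linear group by groups of
scalars: the bound on the dimension.
-/
import Pool.Agent.H.MP_59b15d_al.deg.FullD
import Pool.Agent.H.MP_59b15d_al.h78e.Ab
import Pool.Agent.H.MP_59b15d_al.h78e.ConZ

set_option autoImplicit false

namespace Pool.Agent.H.MP_59b15d_al.H78E

universe u v w x

open Module Pool.MP_59b15d_al.H24T Pool.MP_59b15d_al.H76R Pool.MP_59b15d_al.H73E
open Pool.MP_59b15d_al.H60G Pool.MP_59b15d_al.H40L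
open Pool.Agent.H.MP_59b15d_al.Lin (uA)
open Pool.Agent.H.MP_59b15d_al.H73P
open Pool.Agent.H.MP_59b15d_al.H52E (Tor)
open Pool.Agent.H.MP_59b15d_al.Lft (CE Sz SQ GoodE exists_LM goodE_full pairs_full
  triv_of_twist_full)

variable {m : ℕ} {G : Type w} [Group G] {a b : Fin m → G} (h : IsSurf a b)
variable {F : Type u} [Field F] {V : Type v} [AddCommGroup V] [Module F V]
  [FiniteDimensional F V] {ρ : MCG a b → (V ≃ₗ[F] V)} {Z : Subgroup Fˣ} (hZ : IsProjZ Z ρ)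

omit [FiniteDimensional F V] in
/-- **The bound.** -/
theorem exists_Bd (hm : 6 ≤ m) {D : ℕ} (hD : D < Lft.Bd m) :
    ∃ A, pe hZ.proj A = uA h 0 ∧ Bd.{u, v, w, max v w} h (pe hZ.proj) F D A := by
  have hp := mcg_perfect h (by omega : 3 ≤ m)
  have hC := ce_pe hZ.proj hp
  obtain ⟨A, B, C, S, M⟩ := exists_LM h hC (by omega)
  refine ⟨A 0, M.pA 0, fun W _ _ _ τ hW hirr hz => ⟨?_, ?_⟩⟩
  · exact goodE_full h hC (perf_pe hZ.proj hp) hm hD W τ hW hirr hz
  · obtain ⟨⟨k, -, hk⟩, -⟩ := pairs_full h hC (perf_pe hZ.proj hp) M hm (lt_of_le_of_lt hW hD) hz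
      hirr
    exact ⟨k + 1, hk⟩

include h hZ in
/-- **A twist of finite order up to scalars.** -/
theorem twistZ [CharZero F] (hm : 6 ≤ m) (hD : finrank F V < Lft.Bd m) {n : ℕ} {i : Fin m}
    {t : MCG a b} (ht : IsA a b i t) (hn : n ≠ 0) (hs : ∃ c : F, ∀ v, ρ (t ^ n) v = c • v)
    (φ : MCG a b) : ScalZ Z ρ φ := by
  have hp := mcg_perfect h (by omega : 3 ≤ m)
  have hC := ce_pe hZ.proj hp
  have h0 : t = (uA h i)⁻¹ := by
    apply Subtype.ext
    change (t : MulAut G) = (TrA h i)⁻¹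
    rw [TrA, dif_pos i.2, inv_inv]
    exact (isA_iff h i _).1 ht
  obtain ⟨s, hs1⟩ := hC.sur t
  have h1 : s ^ n ∈ SQ (se hZ.proj) := by
    obtain ⟨c, hc⟩ := hs
    obtain ⟨d, hd⟩ := se_eq hZ.proj (s ^ n)
    refine ⟨d * c, fun v => ?_⟩
    rw [hd, map_pow, hs1, hc, Units.smul_def, smul_smul]
  have h2 := triv_of_twist_full h hC (perf_pe hZ.proj hp) hm hD (se_sz hZ.proj) (i := i) (t := s⁻¹)
    i.2 (by rw [map_inv, hs1, h0, inv_inv]) hn (by
      rw [inv_pow]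
      exact (SQ (se hZ.proj)).inv_mem h1)
  obtain ⟨y, rfl⟩ := hC.sur φ
  exact scalZ_of_se hZ hZ.proj (h2 y)

end Pool.Agent.H.MP_59b15d_al.H78E
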