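/-
Central extensions and projective representations whose image has no abelian normal subgroup.
-/
import Pool.Agent.H.MP_59b15d_al.h78e.Rad2
import Pool.Agent.H.MP_59b15d_al.h73p.Cext
import Pool.Agent.H.MP_59b15d_al.deg.LiftH
import Pool.Agent.H.MP_59b15d_al.lin.SipKer
import Pool.Agent.H.MP_59b15d_al.h73p.Gt
import Pool.Agent.H.MP_59b15d_al.h11r.Ns
import Pool.Agent.H.MP_59b15d_al.h11c.Tree

set_option autoImplicit false

namespace Pool.Agent.H.MP_59b15d_al.H78E

open Module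
open Pool.MP_59b15d_al.H24T Pool.MP_59b15d_al.H76R Pool.MP_59b15d_al.H73E
open Pool.MP_59b15d_al.H60G Pool.MP_59b15d_al.H40L Pool.MP_59b15d_al.H46U
open Pool.MP_59b15d_al.H95E
open Pool.Agent.H.MP_59b15d_al.H52E (Tor mem_Tor Irr)
open Pool.Agent.H.MP_59b15d_al.Lft Pool.Agent.H.MP_59b15d_al.H73P

universe u v w x

section

variable {m : ℕ} {G : Type w} [Group G] {a b : Fin m → G} (h : IsSurf a b)
variable {F : Type u} [Field F] {E : Type x} [Group E] {π : E →* MCG a b}

/-- A scalar whose products vanish is trivial. -/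
theorem one_of_scalar {V : Type v} [AddCommGroup V] [Module F V] {ρ : E →* Module.End F V} {x : E}
    {c : F} (hc : ∀ v, ρ x v = c • v) {d : ℕ} (hd : pq ρ (List.replicate d x) = 0) : ρ x = 1 := by
  have e : ∀ k, ∀ v, pq ρ (List.replicate k x) v = (c - 1) ^ k • v := by
    intro k
    induction k with
    | zero => intro v; rw [List.replicate_zero, pq_nil, pow_zero, one_smul]; rfl
    | succ k ih =>
      intro v
      rw [List.replicate_succ, pq_cons, Module.End.mul_apply, ih, map_smul, LinearMap.sub_apply,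
        hc, pow_succ, mul_smul, sub_smul]
      simp
  refine LinearMap.ext fun v => ?_
  have h1 := e d v
  rw [hd, LinearMap.zero_apply] at h1
  rcases smul_eq_zero.1 h1.symm with h2 | h2
  · have h3 : c = 1 := sub_eq_zero.1 (eq_zero_of_pow_eq_zero h2)
    rw [hc, h3, one_smul]
    rfl
  · rw [h2, map_zero, map_zero]

/-- If the normal subgroups contained in the lift of the Torelli group whose image is commutative
act by scalars, then the Torelli group acts by scalars. -/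
theorem scalar_of_unip (hm : 3 ≤ m) (hs : Function.Surjective π) {V : Type v} [AddCommGroup V]
    [Module F V] {ρ : E →* Module.End F V} (hz : Sz {z | π z = 1} ρ) {d : ℕ}
    (hu : ∀ l : List E, (∀ t ∈ l, t ∈ TorL h π) → d ≤ l.length →
      (l.map (fun t => ρ t - 1)).prod = 0)
    (hA : ∀ A : Subgroup E, A ≤ TorL h π → A.Normal →
      (∀ x ∈ A, ∀ y ∈ A, ρ (x * y) = ρ (y * x)) → ∀ x ∈ A, x ∈ SQ ρ) :
    ∀ t : E, π t ∈ Tor h → t ∈ SQ ρ := by
  have key : ∀ t ∈ TorL h π, ρ t = 1 := by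
    refine unip_triv2 ρ (TorL h π) (fun A hA1 hA2 hA3 x hx => ?_) (d := d)
      fun l hl hlen => hu l hl hlen.ge
    obtain ⟨c, hc⟩ := hA A hA1 hA2 hA3 x hx
    refine one_of_scalar hc (d := d) (hu _ (fun t ht => ?_) (by rw [List.length_replicate]))
    rw [List.eq_of_mem_replicate ht]
    exact hA1 hx
  intro t ht
  rw [← map_TorL h hm hs] at ht
  obtain ⟨s, hs', e⟩ := ht
  have h1 : s ∈ SQ ρ := ⟨1, fun v => by rw [key s hs', one_smul]; rfl⟩
  have h3 : s⁻¹ * t ∈ SQ ρ := hz _ (by rw [Set.mem_setOf_eq, map_mul, map_inv, e,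
    inv_mul_cancel])
  have h4 := mul_mem h1 h3
  rwa [mul_inv_cancel_left] at h4

/-- The image in the projective group has no commutative normal subgroup except `1`. -/
def NoAbP {Γ V : Type*} [Group Γ] [AddCommGroup V] [Module F V] (ρ : Γ → (V ≃ₗ[F] V)) : Prop :=
  ∀ N : Subgroup Γ, N.Normal → (∀ x ∈ N, ∀ y ∈ N, ∃ c : F, ∀ v, ρ x (ρ y v) = c • ρ y (ρ x v)) →
    ∀ x ∈ N, ∃ c : F, ∀ v, ρ x v = c • v

/-- Transport of the hypothesis to a central extension. -/
theorem NoAbP.lift {V : Type v} [AddCommGroup V] [Module F V] {Γ : Type*} [Group Γ]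
    {ρ : Γ → (V ≃ₗ[F] V)} (hN : NoAbP ρ) {τ : E →* Module.End F V} {p : E →* Γ}
    (hs : Function.Surjective p) (hτ : ∀ x, ∃ c : Fˣ, ∀ v, τ x v = c • ρ (p x) v)
    (A : Subgroup E) (hA : A.Normal) (hc : ∀ x ∈ A, ∀ y ∈ A, τ (x * y) = τ (y * x)) :
    ∀ x ∈ A, ∃ c : F, ∀ v, τ x v = c • v := by
  have h1 : ∀ x ∈ A.map p, ∃ c : F, ∀ v, ρ x v = c • v := by
    refine hN (A.map p) (hA.map p hs) ?_
    rintro _ ⟨x, hx, rfl⟩ _ ⟨y, hy, rfl⟩
    obtain ⟨c, h1⟩ := hτ x
    obtain ⟨d, h2⟩ := hτ y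
    refine ⟨1, fun v => ?_⟩
    have h3 := LinearMap.congr_fun (hc x hx y hy) v
    rw [map_mul, map_mul, Module.End.mul_apply, Module.End.mul_apply, h2, h2, h1, h1,
      Units.smul_def, Units.smul_def, Units.smul_def, Units.smul_def, map_smul, map_smul,
      smul_smul, smul_smul, mul_comm (d : F) (c : F)] at h3
    rw [one_smul]
    have h4 : ((c : F) * (d : F)) ≠ 0 := mul_ne_zero c.ne_zero d.ne_zero
    exact smul_right_injective V h4 h3
  intro x hx
  obtain ⟨c, h2⟩ := hτ x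
  obtain ⟨d, h3⟩ := h1 (p x) ⟨x, hx, rfl⟩
  exact ⟨c * d, fun v => by rw [h2, h3, Units.smul_def, smul_smul]⟩

end

end Pool.Agent.H.MP_59b15d_al.H78E
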