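/-
Projective representations of the mapping class group whose image has no abelian normal subgroup.
-/
import Pool.Agent.H.MP_59b15d_al.h78e.RadP
import Pool.Agent.H.MP_59b15d_al.h73p.Tor1
import Pool.Agent.H.MP_59b15d_al.lin.SipKer
import Pool.Agent.H.MP_59b15d_al.h73p.Gt
import Pool.Agent.H.MP_59b15d_al.h11r.Ns
import Pool.Agent.H.MP_59b15d_al.h11c.Tree

set_option autoImplicit false

namespace Pool.Agent.H.MP_59b15d_al.H78E

open Module
open Pool.MP_59b15d_al.H24T Pool.MP_59b15d_al.H76R Pool.MP_59b15d_al.H73E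
open Pool.MP_59b15d_al.H60G Pool.MP_59b15d_al.H40L Pool.MP_59b15d_al.H46U
open Pool.MP_59b15d_al.H95E
open Pool.Agent.H.MP_59b15d_al.H52E (Tor mem_Tor Irr)
open Pool.Agent.H.MP_59b15d_al.Lft Pool.Agent.H.MP_59b15d_al.H73P

universe u v w x

section

variable {m : ℕ} {G : Type w} [Group G] {a b : Fin m → G} (h : IsSurf a b)
variable {F : Type u} [Field F] {V : Type v} [AddCommGroup V] [Module F V]

/-- The central extension of a projective representation. -/
theorem pr_ce' {Γ : Type w} [Group Γ] {ρ : Γ → (V ≃ₗ[F] V)} (hρ : IsProj ρ) : CE (pr hρ) :=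
  ⟨pr_surjective hρ, fun _ hz x => Zs_comm hρ (pr_eq_one hρ hz) x⟩

include h in
/-- **Projective representations whose image has no abelian normal subgroup**: in dimension less
than `2 ^ (m - 1)` the Torelli group acts by scalars. -/
theorem noab_scalar [FiniteDimensional F V] (hm : 6 ≤ m) (ρ : MCG a b → (V ≃ₗ[F] V))
    (hρ : IsProj ρ) (hd : finrank F V < 2 ^ (m - 1)) (hN : NoAbP (F := F) ρ) (φ : MCG a b)
    (hφ : φ ∈ Tor h) : ∃ c : F, ∀ v, ρ φ v = c • v := by
  have hC : CE (cpi (pr hρ)) := cpi_ce (pr_ce' hρ) (mcg_perfect h (by omega))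
  have hperf := perf_c (pr_ce' hρ) (mcg_perfect h (by omega))
  have hG := goodE.{u, v, w, max w v} (F := F) h hC hperf hm hd
  have hτ : ∀ x : commutator (Gt hρ), ∃ c : Fˣ, ∀ v,
      ((sg hρ).comp (commutator (Gt hρ)).subtype) x v = c • ρ (cpi (pr hρ) x) v := fun x =>
    sg_eq hρ x.1
  have hz : Sz {z | cpi (pr hρ) z = 1} ((sg hρ).comp (commutator (Gt hρ)).subtype) :=
    fun z hz => Zs_smul hρ (pr_eq_one hρ hz)
  obtain ⟨x, e⟩ := hC.sur φ
  have h1 := scalar_of_unip h (by omega) hC.sur hz (d := finrank F V)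
    (fun l hl hlen => hG.unip h V _ le_rfl hz l hl hlen)
    (fun A _ hA hc => hN.lift hC.sur hτ A hA hc) x (by rw [e]; exact hφ)
  obtain ⟨c, hc⟩ := h1
  obtain ⟨d, hd'⟩ := hτ x
  refine ⟨(d⁻¹ : Fˣ) * c, fun v => ?_⟩
  rw [mul_smul, ← hc v, hd' v, e, ← Units.smul_def, smul_smul, inv_mul_cancel, one_smul]

end

end Pool.Agent.H.MP_59b15d_al.H78E
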