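/-
Representations whose image has no nontrivial abelian normal subgroup, linear and projective.
-/
import Pool.Agent.H.MP_59b15d_al.h95e.Proj
import Pool.Agent.H.MP_59b15d_al.h46u.ProjT
import Pool.Agent.H.MP_59b15d_al.lin.SipKer
import Pool.Agent.H.MP_59b15d_al.h11c.Tree

set_option autoImplicit false

namespace Pool.Agent.H.MP_59b15d_al.H78E

universe u v w

open Module Pool.MP_59b15d_al.H24T Pool.MP_59b15d_al.H76R Pool.MP_59b15d_al.H73E
open Pool.Agent.H.MP_59b15d_al.Lin Pool.Agent.H.MP_59b15d_al.H52E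
open Pool.Agent.H.MP_59b15d_al.SP (cls)
open Pool.MP_59b15d_al.H95E (unip_trivial pq)

/-- A normal subgroup acting unipotently acts trivially, if the image has no nontrivial abelian
normal subgroup. -/
theorem rad_triv {Γ : Type*} [Group Γ] {R : Type*} [Ring R] (τ : Γ →* R) (T : Subgroup Γ)
    [hT : T.Normal] {d : ℕ}
    (hU : ∀ l : List Γ, (∀ x ∈ l, x ∈ T) → d ≤ l.length → (l.map fun x => τ x - 1).prod = 0)
    (hA : ∀ A : Subgroup Γ, A.Normal → (∀ x ∈ A, ∀ y ∈ A, τ (x * y) = τ (y * x)) →
      ∀ x ∈ A, τ x = 1) : ∀ x ∈ T, τ x = 1 := by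
  obtain ⟨π, hπ⟩ : ∃ π : Γ →* τ.toHomUnits.range, π = τ.toHomUnits.rangeRestrict := ⟨_, rfl⟩
  have hs : Function.Surjective π := by rw [hπ]; exact τ.toHomUnits.rangeRestrict_surjective
  obtain ⟨σ, hσ⟩ : ∃ σ : τ.toHomUnits.range →* R,
    σ = (Units.coeHom R).comp τ.toHomUnits.range.subtype := ⟨_, rfl⟩
  have hσπ : ∀ x, σ (π x) = τ x := by
    intro x
    rw [hσ, hπ]
    rfl
  have hi : Function.Injective σ := by
    rw [hσ]
    intro x y hxy
    exact Subtype.ext (Units.ext hxy)
  have hN : (T.map π).Normal := Subgroup.Normal.map inferInstance π hs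
  have h1 : T.map π = ⊥ := by
    refine unip_trivial (τ := σ) hi ?_ (d := d) ?_
    · intro A hAn hAc
      rw [eq_bot_iff]
      intro y hy
      obtain ⟨x, rfl⟩ := hs y
      have h2 := hA (A.comap π) (hAn.comap π) (fun u hu v hv => by
        rw [← hσπ, ← hσπ, map_mul π, map_mul π, hAc _ hu _ hv]) x hy
      rw [Subgroup.mem_bot]
      apply hi
      rw [hσπ, h2, map_one]
    · intro l hl hlen
      obtain ⟨l', hl', rfl⟩ : ∃ l' : List Γ, (∀ φ ∈ l', φ ∈ T) ∧ l'.map π = l := by
        clear hlen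
        induction l with
        | nil => exact ⟨[], by simp, rfl⟩
        | cons x l ih =>
          obtain ⟨l', h2, h3⟩ := ih fun y hy => hl y (List.mem_cons_of_mem x hy)
          obtain ⟨ψ, hψ, h5⟩ := hl x List.mem_cons_self
          refine ⟨ψ :: l', ?_, by rw [List.map_cons, h3, h5]⟩
          intro y hy
          rcases List.mem_cons.1 hy with rfl | hy
          · exact hψ
          · exact h2 y hy
      rw [List.length_map] at hlen
      have h2 := hU l' hl' hlen.ge
      rw [pq, List.map_map, ← h2]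
      congr 1
      refine List.map_congr_left fun x _ => ?_
      rw [Function.comp_apply, hσπ]
  intro x hx
  have h2 : π x ∈ T.map π := ⟨x, hx, rfl⟩
  rw [h1, Subgroup.mem_bot] at h2
  rw [← hσπ, h2, map_one]

section main

variable {m : ℕ} {G : Type w} [Group G] {a b : Fin m → G} (h : IsSurf a b)
variable {F : Type u} [Field F] {V : Type v} [AddCommGroup V] [Module F V] {D : ℕ}

/-- **Projective representations of small dimension.** They kill the Torelli group if they are
irreducible and the field is algebraically closed, or if the image has no nontrivial abelian normal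
subgroup. -/
theorem proj_triv [FiniteDimensional F V] (hG : Good.{u, v, w} h F D)
    (hD : finrank F V ^ 2 ≤ D) (σ : MCG a b →* (Module.End F V ≃ₐ[F] Module.End F V))
    (hA : (IsAlgClosed F ∧ ∀ U : Submodule F V, (∀ x, ∀ M : Module.End F V,
        LinearMap.range M ≤ U → LinearMap.range (σ x M) ≤ U) → U = ⊥ ∨ U = ⊤) ∨
      ∀ A : Subgroup (MCG a b), A.Normal → (∀ x ∈ A, ∀ y ∈ A, σ (x * y) = σ (y * x)) →
        ∀ x ∈ A, σ x = 1)
    {φ : MCG a b} (hφ : ∀ x, cls h ((φ : MulAut G) x) = cls h x) : σ φ = 1 := by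
  rcases hA with ⟨hF, hirr⟩ | hA
  · exact Pool.MP_59b15d_al.H46U.proj_irr h hG hD σ hirr hφ
  · refine Pool.MP_59b15d_al.H95E.proj_torelli_range h hG hD σ ?_ hφ
    intro A hAn hAc
    have hs : Function.Surjective σ.rangeRestrict := σ.rangeRestrict_surjective
    rw [eq_bot_iff]
    intro y hy
    obtain ⟨x, rfl⟩ := hs y
    have h2 := hA (A.comap σ.rangeRestrict) (hAn.comap _) (fun u hu v hv => by
      have h3 := congrArg Subtype.val (hAc _ hu _ hv)
      have h4 : σ u * σ v = σ v * σ u := h3
      rw [map_mul, map_mul, h4]) x hy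
    rw [Subgroup.mem_bot]
    exact Subtype.ext h2

end main

end Pool.Agent.H.MP_59b15d_al.H78E
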